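import Mathlib

set_option autoImplicit false

/-!
# Project BP: irreducibility of Bernoulli polynomials of degree 2q (problem MP_b354c3_nt)

Main theorem (s_FIN): for almost all primes q the polynomial B_{2^e q}(x) has an irreducible factor
of degree at least 2^e (q - 1), and for almost all primes q = 2 mod 3 the polynomial B_{2q}(x) is
irreducible over the rationals.  Second theorem (s_LRG): for all but O(N / (log N)^2) even n <= N the
polynomial B_n(x) has an irreducible factor of degree at least n - N^(1/2) (log N)^6.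

Notation: B_n = Polynomial.bernoulli n; for a prime p, `Sp p n` is the sum of (X + a)^n over the
residues a mod p.  By von Staudt - Clausen p B_n(x) = Sp p n mod p.
-/

namespace Pool.Agent.L7h58.BP

open Finset Polynomial

/-- the sum over `a = 0, ..., p - 1` of `(X + a)^n` in `(ZMod p)[X]` -/
noncomputable def Sp (p n : ℕ) : (ZMod p)[X] := ∑ a ∈ range p, (X + C (a : ZMod p)) ^ n

/-! ## A. Algebra -/

/-- Gauss lemma: a factorization over `ℚ` of an integer polynomial gives one over `ℤ` with the same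
degrees.  Proof: let f0 be the primitive integer polynomial proportional to f (clear denominators,
divide by the content), P0 = primPart P.  map f0 divides map P0 over ℚ, so f0 ∣ P0 in ℤ[X]
(`Polynomial.IsPrimitive.Int.dvd_iff_map_cast_dvd_map_cast`); F = C (content P) * f0, G = P0 / f0;
degrees: natDegree P = natDegree F + natDegree G. -/
def S_GAU : Prop := ∀ (P : ℤ[X]) (f g : ℚ[X]), P ≠ 0 → P.map (Int.castRingHom ℚ) = f * g →
  ∃ F G : ℤ[X], P = F * G ∧ F.natDegree = f.natDegree ∧ G.natDegree = g.natDegree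

/-- The integral multiple of B_n and its reductions.  D = product of the primes ≤ n + 1
(`primorial (n+1)`), P = D * B_n, the coefficient of X^(n-k) is D * choose n k * bernoulli k.
For even k ≥ 2: bernoulli k = z - ∑_{q prime, (q-1) ∣ k} 1/q, z an integer
(`Bernoulli.vonStaudt_clausen`), so D * bernoulli k is an integer and
≡ -(D/p) [(p-1) ∣ k] mod p (D/q is divisible by p for q ≠ p).  k = 1: bernoulli 1 = -1/2, and
D/2 * n ≡ 0 mod p (p odd: p ∣ D/2; p = 2: n even).  odd k ≥ 3: bernoulli k = 0.  k = 0: D ≡ 0.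
On the other side Sp p n = ∑_k choose n k X^(n-k) ∑_{a mod p} a^k and ∑_a a^k = -1 if (p-1) ∣ k and
k ≥ 1, = 0 otherwise (k = 0 gives p = 0); for p = 2 and odd k note choose n k is even.
So P mod p = (D/p) * Sp p n, and D/p is a unit mod p. -/
def S_RED : Prop := ∀ n : ℕ, Even n → 2 ≤ n → ∃ (P : ℤ[X]) (D : ℕ), 0 < D ∧
  P.map (Int.castRingHom ℚ) = C (D : ℚ) * Polynomial.bernoulli n ∧
  ∀ p : ℕ, p.Prime → p ≤ n + 1 → p ∣ D ∧ ¬ p ^ 2 ∣ D ∧ ∃ u : ZMod p, u ≠ 0 ∧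
    P.map (Int.castRingHom (ZMod p)) = C u * Sp p n

/-- The local criterion at p.  Proof: P = F * G in ℤ[X] by GAU applied to P.map = (C D * f) * g;
the leading coefficient of P is D (B_n is monic), p ∥ D, so exactly one of the leading coefficients of
F, G is divisible by p; the other one keeps its degree mod p.  (The degree never grows under
reduction.)  Multiply one reduction by u⁻¹. -/
def S_CRI : Prop := ∀ (n p : ℕ), Even n → 2 ≤ n → p.Prime → p ≤ n + 1 →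
  ∀ f g : ℚ[X], Polynomial.bernoulli n = f * g →
  ∃ F G : (ZMod p)[X], F * G = Sp p n ∧ F.natDegree ≤ f.natDegree ∧ G.natDegree ≤ g.natDegree ∧
    (F.natDegree = f.natDegree ∨ G.natDegree = g.natDegree)

/-- Lucas.  Sp l n = -∑_{k ≥ 1, (l-1) ∣ k, k ≤ n} choose n k X^(n-k) (as in RED).  n in base l has the
digits (A-1, l-A+t) (since t < A ≤ l) and k = j(l-1), 1 ≤ j ≤ A - t (≤ l), has the digits
(j-1, l-j); so choose n k ≡ choose (A-1) (j-1) * choose (l-A+t) (l-j) mod l (Lucas,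
`Choose.choose_modEq_choose_mod_mul_choose_div_nat`), which is 0 for j < A-t and is nonzero for
j = A-t, where n - k = t l.  So the degree is exactly t l. -/
def S_LUC : Prop := ∀ (l n A t : ℕ), l.Prime → 2 < l → n = A * (l - 1) + t → t < A → A ≤ l →
  Sp l n ≠ 0 ∧ (Sp l n).natDegree ≤ t * l

/-- From CRI and LUC: F * G = Sp l n is nonzero of degree at most t l, so both F and G have degree
at most t l, and one of them has the degree of f or g.  (l ≤ n + 1 since A ≥ 1.) -/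
def S_LOC : Prop := ∀ (n l A t : ℕ), Even n → l.Prime → 2 < l → n = A * (l - 1) + t → t < A → A ≤ l →
  ∀ f g : ℚ[X], Polynomial.bernoulli n = f * g → min f.natDegree g.natDegree ≤ t * l

/-- The prime 2.  n = 2^e q: Sp 2 n = X^n + (X+1)^n = (X^q + (X+1)^q)^(2^e), of degree 2^e (q-1)
(X^q + (X+1)^q has degree q - 1 and leading coefficient q = 1).  Every nonconstant divisor Q of it has
degree at least o = ord_q(2): an irreducible factor of Q has degree d ≤ deg Q and a root x in a field K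
with 2^d elements; x ≠ 0 and z = (x+1)/x satisfies z^q = 1, z ≠ 1, so q ∣ 2^d - 1 and o ∣ d.
By CRI: if F.natDegree = f.natDegree < o then f.natDegree = 0; otherwise G.natDegree = g.natDegree =
n - f.natDegree, so F.natDegree = 2^e (q-1) - (n - f.natDegree) = f.natDegree - 2^e, which is < o,
hence 0, so f.natDegree = 2^e. -/
def S_TWO : Prop := ∀ (e q : ℕ), 1 ≤ e → q.Prime → 2 < q → ∀ f g : ℚ[X],
  Polynomial.bernoulli (2 ^ e * q) = f * g → f.natDegree < orderOf (2 : ZMod q) →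
  f.natDegree = 0 ∨ f.natDegree = 2 ^ e

/-- The prime 3.  n = 2q, q = 2 mod 3.  Sp 3 n = X^n + (X+1)^n + (X-1)^n has degree at most n - 4 and is
not 0: the coefficient of X^(n-k) is -choose n k for even k ≥ 2 and 0 for k = 0 and for odd k, and
choose n 2 = q (2q - 1) is divisible by 3; coefficient of X^0 is -1.  It has no root in a field K with
9 elements: n = 2 or 6 mod 8, so x^n = x^2 or (x^3)^2 for all x in K, and
∑_{a mod 3} (x+a)^n = ∑_a (y+a)^2 = 2 with y = x or y = x^3.  Let f have degree 2; by CRI either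
F has degree 2, then F has a root in a field with 9 elements (a polynomial of degree 2 over ZMod 3
splits in GaloisField 3 2), contradiction; or G.natDegree = g.natDegree = n - 2 > n - 4, contradiction. -/
def S_THR : Prop := ∀ q : ℕ, q.Prime → 2 < q → q % 3 = 2 → ∀ f g : ℚ[X],
  Polynomial.bernoulli (2 * q) = f * g → f.natDegree ≠ 2

/-- If in every factorization one factor has degree at most D and 3 D < n then there is an irreducible
factor of degree at least n - D.  Proof: strong induction on deg f for divisors f of B with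
deg f ≥ n - D: if f is not irreducible, f = f1 f2 with nonunits f1, f2 (positive degrees); each of
deg f1, deg f2 is ≤ D or ≥ n - D (they divide B); not both ≤ D, since 2 D < n - D; take that one. -/
def S_FAC : Prop := ∀ (B : ℚ[X]) (D : ℕ), B ≠ 0 → 3 * D < B.natDegree →
  (∀ f g : ℚ[X], B = f * g → min f.natDegree g.natDegree ≤ D) →
  ∃ h : ℚ[X], Irreducible h ∧ h ∣ B ∧ B.natDegree - D ≤ h.natDegree

/-! ## B. Primes l near the square root of n with n mod (l-1) small -/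

/-- there are a prime `l` and `n = A (l-1) + t` with `t < A ≤ l` and `t l` small -/
def Good (N n : ℕ) : Prop := ∃ l A t : ℕ, l.Prime ∧ 2 < l ∧ n = A * (l - 1) + t ∧ t < A ∧ A ≤ l ∧
  (t * l : ℝ) ≤ Real.sqrt N * (Real.log N) ^ 6

/-- the dual large sieve for Farey fractions (any constant).  Search the library (DLS, large sieve,
Hilbert inequality, dual) or prove it by duality from `∑_x |∑_n a_n e(n x)|^2 ≤ K (N + Q^2) ∑ |a_n|^2`
(Gallagher), or directly: multiply by a majorant of [0, N] whose Fourier transform lives in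
(-1/Q^2, 1/Q^2), or Montgomery-Vaughan. -/
def S_DLS : Prop := ∃ K : ℝ, 0 < K ∧ ∀ (N Q : ℕ) (S : Finset ℚ) (c : ℚ → ℂ), 1 ≤ Q →
  (∀ x ∈ S, 0 ≤ x ∧ x < 1 ∧ x.den ≤ Q) →
  ∑ n ∈ range (N + 1), ‖∑ x ∈ S, c x * Complex.exp (2 * Real.pi * Complex.I * (((x : ℝ) * n : ℝ) : ℂ))‖ ^ 2 ≤
    K * (N + Q ^ 2) * ∑ x ∈ S, ‖c x‖ ^ 2

/-- the number of pairs `(s, s')` in `[0, U)^2` with `s + s' ≡ n mod m` -/
def W (U m n : ℕ) : ℕ := (((range U) ×ˢ (range U)).filter (fun s => (s.1 + s.2) % m = n % m)).card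

/-- The variance.  W U m n = ∑_{h mod m} (1/m) Φ(h/m) e(hn/m), Φ(x) = (∑_{s<U} e(-xs))^2, the term
h = 0 is U^2/m.  Group by the reduced fraction x = h/m: ∑_{m∈M} (W - U^2/m) = ∑_{x} c_x e(xn), over the
rationals 0 < x < 1 of denominator k ≤ 16 L, c_x = Φ(x) ∑_{m ∈ M, k ∣ m} 1/m, so
|c_x| ≤ (16/k) min(U^2, 1/(4 ‖x‖^2)) (at most 16L/k multiples of k, each 1/m ≤ 1/L;
|∑_{s<U} e(-xs)| ≤ min(U, 1/(2‖x‖)), ‖x‖ = min(x, 1-x)).  By DLS with Q = 16 L it remains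
∑_{k ≤ 16L} (256/k^2) 2 ∑_{1≤b≤k/2} min(U^4, k^4/(16 b^4)) ≤ K' U^3 log L, since the inner sum is
≤ K'' k U^3 (b ≤ k/U: U^4 k/U; b > k/U: the tail of ∑ b^-4 is ≤ K (k/U)^-3 when k ≥ U, and the full sum is
≤ k^4 ≤ k U^3 when k < U). -/
def S_VAR : Prop := ∃ K : ℝ, 0 < K ∧ ∀ (N L U : ℕ) (M : Finset ℕ), 2 ≤ U → 2 ≤ L →
  (∀ m ∈ M, L ≤ m ∧ m ≤ 16 * L) →
  ∑ n ∈ range (N + 1), (∑ m ∈ M, ((W U m n : ℝ) - (U : ℝ) ^ 2 / m)) ^ 2 ≤
    K * (N + (L : ℝ) ^ 2) * (U : ℝ) ^ 3 * Real.log L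

/-- Chebyshev: from θ(16 L) ≥ 16 L log 2 - o(L) and θ(L) ≤ L log 4 (`Chebyshev.theta_ge`,
`Chebyshev.theta_le_log4_mul_x` in Mathlib). -/
def S_PRC : Prop := ∃ c : ℝ, 0 < c ∧ ∀ᶠ L : ℕ in Filter.atTop,
  c * L / Real.log L ≤ (((Ioc L (16 * L)).filter Nat.Prime).card : ℝ)

/-- From VAR and PRC.  N large, L = ⌈√N⌉ + 2, U = ⌈(log N)^5⌉, M = {l - 1 : l prime, L < l ≤ 16 L}.
E = ∑_{m∈M} U^2/m ≥ c' U^2/log L.  Let N/(log N)^2 < n ≤ N be not Good.  Then W U m n = 0 for all m ∈ M: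
otherwise n = A m + t, t = s + s' ≤ 2U - 2 < m, A ≤ N/L ≤ l, A ≥ n/m - 1 > 2U > t, and
t l ≤ 2U * 16 L ≤ √N (log N)^6.  So each such n contributes E^2 to the variance, and their number is
≤ K (N + L^2) U^3 log L / E^2 ≤ K' N (log N)^3/U ≤ K' N/(log N)^2.  Small N: enlarge C. -/
def S_LSV : Prop := ∃ C : ℝ, 0 < C ∧ ∀ N : ℕ, 3 ≤ N →
  (Nat.card {n : ℕ // 1 ≤ n ∧ n ≤ N ∧ ¬ Good N n} : ℝ) ≤ C * N / (Real.log N) ^ 2

/-! ## C. The order of 2 modulo almost all primes (Erdos - Murty) -/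

/-- the number of primes `q ≤ x` with the property `P` -/
noncomputable def cnt (x : ℕ) (P : ℕ → Prop) : ℕ := Nat.card {q : ℕ // q.Prime ∧ q ≤ x ∧ P q}

/-- Brun - Titchmarsh for the residue class 1 (from `Pool.Agent.H426R3.CP.exists_BTC` with a = 1,
q = d, N = x/d + 1; t = 0 gives 1, not prime). -/
def S_BT : Prop := ∃ C : ℝ, 1 ≤ C ∧ ∀ d x : ℕ, 1 ≤ d → 2 * d ≤ x →
  (cnt x (fun q => d ∣ q - 1) : ℝ) ≤
    C * x / ((Nat.totient d : ℝ) * Real.log ((x : ℝ) / d))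

/-- Few primes have a small order of 2: each one divides ∏_{i=1}^{Y} (2^i - 1) < 2^(Y(Y+1)/2). -/
def S_OB : Prop := ∀ x Y : ℕ,
  cnt x (fun q => 2 < q ∧ orderOf (2 : ZMod q) ≤ Y) ≤ Y ^ 2

/-- Hall - Tenenbaum.  Proof: ∑ f(n) log n = ∑_n f(n) ∑_{p^k ∥ n} log p^k
= ∑_m f(m) ∑_{p^k ≤ X/m, p ∤ m} f(p^k) log p^k ≤ ∑_m f(m) K X/m (Chebyshev) and
∑ f(n) log(X/n) ≤ ∑ f(n) X/n; add. -/
def S_HTA : Prop := ∃ K : ℝ, 0 < K ∧ ∀ f : ℕ → ℝ, (∀ n, 0 ≤ f n) → f 1 = 1 →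
  (∀ m n, Nat.Coprime m n → f (m * n) = f m * f n) → (∀ p k, p.Prime → 1 ≤ k → f (p ^ k) ≤ 2) →
  ∀ X : ℕ, 2 ≤ X → ∑ n ∈ Icc 1 X, f n ≤ K * X / Real.log X * ∑ n ∈ Icc 1 X, f n / n

/-- the number of prime factors greater than `w` -/
def om (w n : ℕ) : ℕ := (n.primeFactors.filter (fun p => w < p)).card

/-- HTA for f(n) = (3/4)^(om w n) n/φ(n) (f(p^k) = z_p p/(p-1) ≤ 2, z_p = 3/4 if p > w and 1 otherwise), and
∑_{n≤X} f(n)/n ≤ ∏_{p≤X} (1 + ∑_{k≥1} f(p^k)/p^k) = ∏_{p≤X} (1 + z_p p/(p-1)^2)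
≤ K_w exp((3/4) ∑_{p≤X} 1/p) ≤ K_w' (log X)^(3/4) (Mertens, e.g. `Pool.Agent.Erdos456` mertens_inv). -/
def S_HTT : Prop := ∀ w : ℕ, ∃ K : ℝ, 0 < K ∧ ∀ X : ℕ, 2 ≤ X →
  ∑ n ∈ Icc 1 X, (3 / 4 : ℝ) ^ (om w n) * ((n : ℝ) / Nat.totient n) ≤
    K * X * (Real.log X) ^ (-(1 / 4 : ℝ))

/-- From HTT.  On the set 1 ≤ (3/4)^(om w d) (4/3)^((3/4) loglog x) = (3/4)^(om w d) (log x)^0.2158, and
∑_{d ∈ [D1, D2]} (3/4)^(om w d)/φ(d) ≤ K (loglog x) (log x)^(-1/4) by O(loglog x) dyadic blocks. -/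
def S_DVA : Prop := ∀ (w : ℕ) (ε : ℝ), 0 < ε → ∀ᶠ x : ℕ in Filter.atTop,
  ∑ d ∈ (range (x + 1)).filter (fun d : ℕ => Real.sqrt x / (Real.log x) ^ 9 ≤ d ∧
      (d : ℝ) ≤ Real.sqrt x * (Real.log x) ^ 9 ∧ (om w d : ℝ) ≤ 3 / 4 * Real.log (Real.log x)),
    (1 : ℝ) / Nat.totient d ≤ ε

/-- From BT: primes p ≤ x^(1/4): ∑_{p>w} C x/(p(p-1) log(x/p^2)) ≤ 2 C x/log x ∑_{m>w} 1/(m(m-1));
p > x^(1/4): at most ∑ x/p^2 ≤ 2 x^(3/4). -/
def S_DVQ : Prop := ∀ ε : ℝ, 0 < ε → ∃ w : ℕ, ∀ᶠ x : ℕ in Filter.atTop,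
  (cnt x (fun q => ∃ p : ℕ, p.Prime ∧ w < p ∧ p ^ 2 ∣ q - 1) : ℝ) ≤ ε * x / Real.log x

/-- From BT, by the k-th factorial moment, k fixed large in terms of ε.  Let y = x^(1/(2k)); q - 1 has at
most 2k prime factors > y.  If ω(q-1) ≥ (3/2) loglog x, then q - 1 has at least
R = (3/2) loglog x - 2k prime factors ≤ y, and
choose(R, k) #{such q} ≤ ∑_{d = p_1<...<p_k ≤ y} #{q : d ∣ q-1} ≤ (2C x/log x) ∑_d 1/φ(d)
≤ (2C x/log x) (∑_{p≤y} 1/(p-1))^k/k! ≤ (2C x/log x) (loglog x + C')^k/k!, so the number is at most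
(2C x/log x) ((loglog x + C')/(R - k))^k → (2C x/log x) (2/3)^k. -/
def S_DVM : Prop := ∀ ε : ℝ, 0 < ε → ∀ᶠ x : ℕ in Filter.atTop,
  (cnt x (fun q => 3 / 2 * Real.log (Real.log x) ≤ ((q - 1).primeFactors.card : ℝ)) : ℝ) ≤
    ε * x / Real.log x

/-- Almost no prime q has a divisor of q - 1 close to √x.  From BT, DVA, DVQ, DVM.  Let q > x/(log x)^2 be
in the set (there are at most x/(log x)^2 other ones), outside the sets of DVQ (this fixes w) and DVM,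
q - 1 = d d'.  Both d and d' are in [√x/(log x)^9, √x (log x)^9], and
om w d + om w d' = om w (q-1) ≤ ω(q-1) < (3/2) loglog x, so one of them has om w ≤ (3/4) loglog x.  The number of
q with such a divisor d is ≤ ∑_d C x/(φ(d) log(x/d)) ≤ 3 C (x/log x) ∑_d 1/φ(d), and DVA. -/
def S_DV : Prop := ∀ ε : ℝ, 0 < ε → ∀ᶠ x : ℕ in Filter.atTop,
  (cnt x (fun q => ∃ d : ℕ, d ∣ q - 1 ∧
    Real.sqrt x / (Real.log x) ^ 7 ≤ d ∧ (d : ℝ) ≤ Real.sqrt x * (Real.log x) ^ 7) : ℝ) ≤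
    ε * x / Real.log x

/-- From OB (with Y = ⌊√x/log x⌋) and DV (the order of 2 divides q - 1). -/
def S_ORD : Prop := ∀ ε : ℝ, 0 < ε → ∀ᶠ x : ℕ in Filter.atTop,
  (cnt x (fun q => 2 < q ∧
    (orderOf (2 : ZMod q) : ℝ) ≤ Real.sqrt x * (Real.log x) ^ 7) : ℝ) ≤ ε * x / Real.log x

/-! ## D. The results -/

/-- Main theorem.  Let q > 3 be a prime with n = 2^e q Good for N = 2^e x and
ord_q(2) > √x (log x)^7 ≥ √N (log N)^6 (x large).  By LOC every factorization B_n = f g has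
min(deg f, deg g) < ord_q(2), so by TWO the minimum is 0 or 2^e; FAC with D = 2^e gives the factor.  If
e = 1 and q = 2 mod 3 then THR excludes 2, so the minimum is 0 and B_{2q} is irreducible.  The exceptional q
are counted by LSV (q ↦ 2^e q is injective) and ORD. -/
def S_FIN : Prop :=
  (∀ e : ℕ, 1 ≤ e → ∀ ε : ℝ, 0 < ε → ∀ᶠ x : ℕ in Filter.atTop,
    (cnt x (fun q => ¬ ∃ h : ℚ[X], Irreducible h ∧
      h ∣ Polynomial.bernoulli (2 ^ e * q) ∧ 2 ^ e * (q - 1) ≤ h.natDegree) : ℝ) ≤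
      ε * x / Real.log x) ∧
  (∀ ε : ℝ, 0 < ε → ∀ᶠ x : ℕ in Filter.atTop,
    (cnt x (fun q => q % 3 = 2 ∧ ¬ Irreducible (Polynomial.bernoulli (2 * q))) : ℝ) ≤
      ε * x / Real.log x)

/-- Second theorem: from LSV, LOC and FAC. -/
def S_LRG : Prop := ∃ C : ℝ, 0 < C ∧ ∀ N : ℕ, 3 ≤ N →
  (Nat.card {n : ℕ // 1 ≤ n ∧ n ≤ N ∧ Even n ∧ ¬ ∃ h : ℚ[X], Irreducible h ∧
    h ∣ Polynomial.bernoulli n ∧
    (n : ℝ) - Real.sqrt N * (Real.log N) ^ 6 ≤ h.natDegree} : ℝ) ≤ C * N / (Real.log N) ^ 2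

end Pool.Agent.L7h58.BP
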