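import Pool.Agent.L7h58.BP.Stm

set_option autoImplicit false

/-!
# Project BP, third stage: every large n

Goal (s_ALB): for every sufficiently large even n the polynomial B_n(x) has an irreducible factor of degree
at least n - n^(99/100).  By LOC and FAC it is enough to find a prime l near √n with n mod (l-1) ≤ l/T, T a
small power of n; this follows from a power saving in the exponential sums
∑_{L < m ≤ 2L} Λ(m) e(h n/(m-1)), L = ⌈√n⌉ (Vaughan's identity and the second derivative test).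
-/

namespace Pool.Agent.L7h58.BP

open Finset Polynomial

/-- `e(x) = exp(2 π i x)` -/
noncomputable def ex (x : ℝ) : ℂ := Complex.exp (2 * Real.pi * Complex.I * (x : ℂ))

/-- The second derivative test (van der Corput); this is `Pool.Agent.L7h23.CM27...s_K2` (file
Pool/Agent/L7h23/CM27/K2.lean, `KT 2 (1/2) 1` of L7h27/CM/Stm.lean), restated. -/
def S_K2 : Prop := ∀ h : ℝ, 1 ≤ h → ∃ C : ℝ, 0 < C ∧
  ∀ (K : ℕ) (lam a sg : ℝ) (φ φ1 φ2 : ℝ → ℝ), 0 < lam → |sg| = 1 →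
    (∀ t ∈ Set.Icc a (a + K), HasDerivAt φ (φ1 t) t ∧ HasDerivAt φ1 (φ2 t) t) →
    (∀ t ∈ Set.Icc a (a + K), lam ≤ sg * φ2 t ∧ sg * φ2 t ≤ h * lam) →
    ‖∑ k ∈ range (K + 1), ex (φ (a + k))‖ ≤
      C * (((K : ℝ) + 1) * lam ^ (1 / 2 : ℝ) + lam ^ (-(1 / 2) : ℝ))

/-- Type I.  φ(t) = h n/(d t - 1), φ'' = 2 h n d^2/(d t - 1)^3, L ≤ d t - 1 ≤ 2 L on [a+1, b], so
lam = h n d^2/(4 L^3) and ratio 8; lam is between h d^2/(64 L) and h d^2/(4 L), b - a ≤ L/d + 1 terms: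
C ((L/d + 2) d √(h/(4L)) + 8 √(L/h)/d) ≤ C' √(h L). -/
def S_TYI : Prop := ∃ C : ℝ, 0 < C ∧ ∀ L n h d a b : ℕ, 1 ≤ L → L ^ 2 ≤ 16 * n → n ≤ L ^ 2 → 1 ≤ h →
  1 ≤ d → d ≤ L → L < d * (a + 1) → d * b ≤ 2 * L →
  ‖∑ k ∈ Ioc a b, ex ((h * n : ℝ) / ((d : ℝ) * k - 1))‖ ≤ C * Real.sqrt (h * L)

/-- Type II.  Cut the m into at most 2M/Q blocks of length ≤ Q, Q = min(M, ⌈(K/h)^(1/3)⌉).  For a block β,
Cauchy over k: |S_β|^2 ≤ K ∑_{m,m'∈β} |∑_{k∈I} e(G(k))|, I = the k ∈ (K, 2K] with mk, m'k ∈ (L, 2L] (an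
interval), G(t) = h n (1/(m t - 1) - 1/(m' t - 1)).  m = m': ≤ K.  m < m', Δ = m' - m < Q:
G'' = 2 h n ∫_m^{m'} (s^2 t + 2 s)/(s t - 1)^4 ds, and on s t ∈ (L, 2L], M < s ≤ 2M the integrand is between
M/(16 L^3) and 12 M/L^3; so K2 with lam = h n Δ M/(8 L^3) (between h Δ M/(128 L) and h Δ M/(8 L)) and
ratio 192 gives ≤ C (K (h Δ M/L)^(1/2) + (L/(h Δ M))^(1/2)).  Sum over m, m' (M/L ≤ 2/K, L/M ≤ 4K):
|S_β|^2 ≤ C (Q K^2 + Q^(5/2) K^(3/2) h^(1/2)), |S| ≤ (2M/Q) max |S_β| ≤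
C M K (Q^(-1/2) + (Q h/K)^(1/4)) ≤ C' L (M^(-1/2) + (h/K)^(1/6)). -/
def S_TYII : Prop := ∃ C : ℝ, 0 < C ∧ ∀ (L n h M K : ℕ) (u v : ℕ → ℂ), (∀ m, ‖u m‖ ≤ 1) →
  (∀ k, ‖v k‖ ≤ 1) → 1 ≤ L → L ^ 2 ≤ 16 * n → n ≤ L ^ 2 → 1 ≤ h → h ≤ K → 1 ≤ M → M ≤ K →
  M * K ≤ 2 * L → L < 4 * (M * K) →
  ‖∑ m ∈ Ioc M (2 * M), ∑ k ∈ (Ioc K (2 * K)).filter (fun k => L < m * k ∧ m * k ≤ 2 * L),
    u m * v k * ex ((h * n : ℝ) / ((m : ℝ) * k - 1))‖ ≤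
    C * L * ((M : ℝ) ^ (-(1 / 2) : ℝ) + ((h : ℝ) / K) ^ (1 / 6 : ℝ))

/-- The sum over prime powers.  Vaughan's identity (`Pool.Agent.L7h53.MW` s_VAU : `L7h88.MW` S_VAU) with
V = ⌊L^(1/6)⌋.  First term: ∑_{d≤V} μ(d) ∑_k log k e(..) ≤ 2 V log(2L) C √(hL) (Abel summation, TYI);
second: ∑_{m≤V^2} |c_V(m)| |∑_k e| ≤ V^2 log L C √(hL) (TYI); third: d > V, e = N/d > V, u = μ,
v(e) = (∑_{k ∣ e, k > V} Λ(k))/log(2L) (absolute value ≤ 1, 0 for e ≤ V), dyadic boxes d ∈ (2^i V, 2^(i+1) V],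
e ∈ (2^j V, 2^(j+1) V], at most (2 log(2L))^2 nonempty ones, in each 4MK > L and MK ≤ 2L; TYII (exchange the
roles if M > K): ≤ C L log(2L) (V^(-1/2) + (h/K)^(1/6)), K ≥ √L/2 ≥ h. -/
def S_EXP : Prop := ∃ C : ℝ, 0 < C ∧ ∀ L n h : ℕ, 2 ≤ L → L ^ 2 ≤ 16 * n → n ≤ L ^ 2 → 1 ≤ h →
  4 * h ^ 2 ≤ L →
  ‖∑ m ∈ Ioc L (2 * L), ((ArithmeticFunction.vonMangoldt m : ℝ) : ℂ) *
    ex ((h * n : ℝ) / ((m : ℝ) - 1))‖ ≤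
    C * (L : ℝ) ^ (11 / 12 : ℝ) * Real.sqrt h * (Real.log L) ^ 3

/-- From EXP by the Fejér kernel.  n large, L = ⌈√n⌉ (n ≤ L^2 ≤ 16 n), H = ⌊L^(1/20)⌋, T = ⌊H^(1/2)/C1⌋.
F(θ) = ∑_{|h|<H} (1 - |h|/H) e(hθ) = |∑_{0≤h<H} e(hθ)|^2/H satisfies 0 ≤ F ≤ H and F(θ) ≤ 1/(4 H ‖θ‖^2).
θ_m = n/(m-1) - 1/(2T).  If no prime l ∈ (L, 2L] has frac(n/(l-1)) < 1/T, then ‖θ_l‖ ≥ 1/(2T) for all of
them, ∑ Λ(m) F(θ_m) ≤ (T^2/H) ψ(2L) + H * (prime powers: C √L (log L)^2) < c L/2 (C1 large), while it is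
≥ ψ(2L) - ψ(L) - 2 ∑_{1≤h<H} |S(h)| ≥ c L - 2 C H^(3/2) L^(11/12) (log L)^3 > c L/2.  (For the lower bound use
(L, 2L] and ψ(2L) - ψ(L) ≥ c L: from the prime number theorem in the library or Bertrand type bounds: product of
the primes in (L, 2L] from the central binomial coefficient: choose (2L) L ≥ 4^L/(2L) and its prime powers are
≤ 2L, primes ≤ 2L/3 contribute ≤ 4^(2L/3).)  So there is a prime l with t = n mod (l-1) < (l-1)/T, A = n/(l-1) ≤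
n/L ≤ l and A ≥ n/(2L) - 1 > 2L/T > t, t l ≤ 4 L^2/T ≤ n^(99/100). -/
def S_ALN : Prop := ∃ N0 : ℕ, ∀ n : ℕ, N0 ≤ n → ∃ l A t : ℕ, l.Prime ∧ 2 < l ∧ n = A * (l - 1) + t ∧
  t < A ∧ A ≤ l ∧ (t * l : ℝ) ≤ (n : ℝ) ^ (99 / 100 : ℝ)

/-- Third theorem: from ALN, LOC and FAC. -/
def S_ALB : Prop := ∃ N0 : ℕ, ∀ n : ℕ, N0 ≤ n → Even n → ∃ h : ℚ[X], Irreducible h ∧
  h ∣ Polynomial.bernoulli n ∧ (n : ℝ) - (n : ℝ) ^ (99 / 100 : ℝ) ≤ h.natDegree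

end Pool.Agent.L7h58.BP
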