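import Pool.Agent.L7h58.BP.Stm

set_option autoImplicit false

/-!
# Project BP, second stage: no quadratic factors for almost all q

Goal (s_FINB): for almost all primes q (all residue classes) B_{2q}(x) is irreducible over the rationals.
The only obstruction left by stage one is a quadratic factor X^2 - X + c of B_n, n = 2q = 2 mod 3, which is the
3-adic polar factor.  Then Y = 3 - 12 c is an integer prime to 3, |Y| ≤ 24 n^2, and Y is a 3-adic analytic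
function of n whose third divided difference never vanishes; the determinant method (Bombieri - Pila)
bounds the number of such n ≤ N by C N^(5/6).
-/

namespace Pool.Agent.L7h58.BP

open Finset Polynomial

/-- `β_j = 3^j (2 - 4^j) B_{2j}`: 1, -1, 21/5, -279/7, 3429/5, -206955/11, ... (3-adic valuation j - 1 for
j ≥ 1) -/
noncomputable def be (j : ℕ) : ℚ := 3 ^ j * (2 - 4 ^ j) * _root_.bernoulli (2 * j)

/-- the relation `∑_j choose n (2j) β_j Y^(-j) = 0`; it says that `B_n(1/2 + y) = 0` for `y^2 = Y/12` -/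
def Rel (n : ℕ) (Y : ℤ) : Prop :=
  ∑ j ∈ range (n / 2 + 1), (n.choose (2 * j) : ℚ) * be j / (Y : ℚ) ^ j = 0

/-- RED with D = primorial (n+1) (the proof of RED gives this). -/
def S_RED2 : Prop := ∀ n : ℕ, Even n → 2 ≤ n → ∃ P : ℤ[X],
  P.map (Int.castRingHom ℚ) = C ((primorial (n + 1) : ℕ) : ℚ) * Polynomial.bernoulli n ∧
  ∀ p : ℕ, p.Prime → p ≤ n + 1 → ∃ u : ZMod p, u ≠ 0 ∧ P.map (Int.castRingHom (ZMod p)) = C u * Sp p n

/-- `∑_{a mod 3} (X+a)^(2q)`, q odd, has no divisor of degree 2: such a divisor has a root x in a field K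
with 9 elements, and 2q = 2 or 6 mod 8, so x^(2q) = x^2 or (x^3)^2 for all x in K and
∑_a (x+a)^(2q) = ∑_a (y+a)^2 = 2 with y = x or x^3.  (Inside the proof of THR.) -/
def S_NRT : Prop := ∀ q : ℕ, q % 2 = 1 → ∀ F : (ZMod 3)[X], F ∣ Sp 3 (2 * q) → F.natDegree ≠ 2

/-- Expansion at 1/2.  B_n(1/2 + y) = ∑_k choose n k B_k(1/2) y^(n-k) (Appell) and
B_k(1/2) = (2^(1-k) - 1) B_k (multiplication formula), 0 for odd k.  A complex root x of X^2 - X + (3-Y)/12
has (x - 1/2)^2 = Y/12; divide B_n(x) = 0 by (Y/12)^(n/2):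
(2^(1-2j) - 1) B_{2j} 12^j = β_j. -/
def S_CEN : Prop := ∀ (n : ℕ) (Y : ℤ), Even n → 2 ≤ n → Y ≠ 0 →
  (X ^ 2 - X + C (((3 - Y : ℤ) : ℚ) / 12)) ∣ Polynomial.bernoulli n → Rel n Y

/-- Size: |B_k| ≤ k! (induction with (k+1) B_k = -∑_{j<k} choose (k+1) j B_j, as e - 2 < 1), so
|choose n (2j) β_j| ≤ (12 n^2)^j; if |Y| > 24 n^2, the terms j ≥ 1 add up to less than 1 = term 0. -/
def S_SIZ : Prop := ∀ (n : ℕ) (Y : ℤ), 2 ≤ n → Y ≠ 0 → Rel n Y → |(Y : ℝ)| ≤ 24 * (n : ℝ) ^ 2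

/-- The polar quadratic factor.  n = 2q, f = a1 (X^2 - X + c) by the symmetry.  Let a = den c and
F = a X^2 - a X + a c ∈ ℤ[X], primitive, so P = F G in ℤ[X] with P from RED2, and a * lead G =
primorial (n+1), squarefree.  A prime p ≥ 5 does not divide a: otherwise F mod p is a nonzero constant and
G mod p has degree n - 2, but the coefficient of X^(n-2) in P is primorial (n+1) * choose n 2 / 6, divisible
by p.  Hence a ∣ 6 and Y = 3 - 12 c is an integer.  3 ∣ a: otherwise F mod 3 has degree 2 and divides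
P mod 3 = u * Sp 3 n, against NRT.  So 12 c is prime to 3 and so is Y. -/
def S_POL : Prop := ∀ (q : ℕ) (f : ℚ[X]), q.Prime → 3 < q → f.natDegree = 2 → f.comp (1 - X) = f →
  f ∣ Polynomial.bernoulli (2 * q) →
  ∃ Y : ℤ, ¬ (3 : ℤ) ∣ Y ∧ (X ^ 2 - X + C (((3 - Y : ℤ) : ℚ) / 12)) ∣ Polynomial.bernoulli (2 * q)

/-- The 3-adic coefficient polynomials.  n = 2 + 3m, c_j(X) = (β_j/(2j)!) ∏_{i<2j} (2 - i + 3X) in ℤ_[3][X]:
v_3(β_j) = j - 1 (von Staudt: v_3(B_{2j}) = -1; 2 - 4^j = 1 mod 3) and v_3((2j)!) ≤ j - 1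
(`sub_one_mul_padicValNat_factorial`; the base 3 digit sum of an even number is even, so ≥ 2), so
β_j/(2j)! is a 3-adic integer; the product is divisible by 3^(⌊2j/3⌋) (the factors with i = 2 mod 3);
c_j(m) = choose n (2j) β_j, which is 0 for 2j > n.  Values of β_j/(2j)!, j = 1, ..., 5: -1/2, 7/40, -31/560,
381/22400, -73/14080; the classes mod 81 below were checked by a program.  The last claim is Rel times Y^J
(the terms j > J are divisible by 3^(⌊2(J+1)/3⌋), Y is a unit). -/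
def S_TDA : Prop := ∃ c : ℕ → ℤ_[3][X],
  (∀ j, ∃ d : ℤ_[3][X], c j = 3 ^ (2 * j / 3) * d) ∧ c 0 = 1 ∧
  (∃ e : ℤ_[3][X], c 1 = -1 + 36 * X + 36 * X ^ 2 + 81 * e) ∧
  (∃ e : ℤ_[3][X], c 2 = 3 * X - 36 * X ^ 2 - 27 * X ^ 3 + 81 * e) ∧
  (∃ e : ℤ_[3][X], c 3 = -9 * X + 9 * X ^ 2 + 81 * e) ∧
  (∃ e : ℤ_[3][X], c 4 = -27 * X + 27 * X ^ 2 + 81 * e) ∧
  (∃ e : ℤ_[3][X], c 5 = 27 * X - 27 * X ^ 3 + 81 * e) ∧
  ∀ (m J : ℕ) (Y : ℤ), ¬ (3 : ℤ) ∣ Y → Rel (2 + 3 * m) Y →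
    (3 : ℤ_[3]) ^ (2 * (J + 1) / 3) ∣
      ∑ j ∈ range (J + 1), (c j).eval (m : ℤ_[3]) * (Y : ℤ_[3]) ^ (J - j)

/-- From TDA.  Rel says Y = T(Y), T(Y) = -c_1 - ∑_{j≥2} c_j Y^(1-j) (truncated at a large J), where c_j is
divisible by 3 for j ≥ 2.  T is a contraction: Y = Y' mod 3^k (units) gives T(Y) = T(Y') mod 3^(k+1), both
for 3-adic integers Y = 1 mod 3 and for polynomials y ∈ ℤ_[3][X] with y = 1 mod 3 (inverse mod 3^M: the
polynomial ∑_{k<M} (1-y)^k).  Start: Y = -c_1(m) = 1 mod 3.  Mod 81 only j ≤ 5 matter and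
y0 = 1 + 51 X + 9 X^2 + 27 X^3 satisfies ∑_{j≤5} c_j y0^(5-j) = 0 mod 81, i.e. y0 = T(y0) mod 81 (checked by
a program; with the representatives above the quotient by 81 is the integer polynomial with coefficients
0, 1, 197, 16870, 586362, 7829319, 10121814, 22454064, 19429551, 23528232, 14281110, 11263050, 4573017,
2421009, 531441, 177147 of X^0, ..., X^15).  Induction on M: y = y0 for M ≤ 4 (apply T four times to
Y = 1 mod 3), then y' = T(y) mod 3^(M+1), which is again y0 mod 81. -/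
def S_TAD : Prop := ∀ M : ℕ, ∃ y e : ℤ_[3][X],
  y = 1 + 51 * X + 9 * X ^ 2 + 27 * X ^ 3 + 81 * e ∧
  ∀ (m : ℕ) (Y : ℤ), ¬ (3 : ℤ) ∣ Y → Rel (2 + 3 * m) Y →
    (3 : ℤ_[3]) ^ M ∣ (Y : ℤ_[3]) - y.eval (m : ℤ_[3])

/-- The determinant.  Let V = ∏_{i<j} (m_j - m_i) ≠ 0, divisible by 3^(6r), and take TAD with
M = v_3(V) + 4.  Y_i = y(m_i) + 3^M d_i.  det (1, m_i, m_i^2, X^k(m_i)) = V h_{k-3}(m) (0 for k < 3), so
det (1, m_i, m_i^2, y(m_i)) = V (27 + 81 z), z ∈ ℤ_[3] (it is V * 27 for 27 X^3 and V * 81 * (...) for 81 e; the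
coefficientwise divisibility det (1, m_i, m_i^2, m_i^k) = V * integer is enough), and the d-part is divisible by
3^M.  So the determinant is 27 V (1 + 3 z') ≠ 0 and is divisible by V in ℤ_[3], hence by 3^(6r). -/
def S_DDF : Prop := ∀ (r : ℕ) (m : Fin 4 → ℕ) (Y : Fin 4 → ℤ), Function.Injective m →
  (∀ i j, m i ≡ m j [MOD 3 ^ r]) → (∀ i, ¬ (3 : ℤ) ∣ Y i ∧ Rel (2 + 3 * m i) (Y i)) →
  (3 : ℤ) ^ (6 * r) ≤ |(Matrix.of (fun i : Fin 4 => ![1, (m i : ℤ), (m i : ℤ) ^ 2, Y i])).det|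

/-- From SIZ and DDF.  Let r be minimal with 3^(6r) > 24 * 24 * N^5 + 1 (any safe constant); a class mod 3^r
contains at most 3 of the m = (n-2)/3 ≤ N: four of them give a determinant of absolute value
≤ 24 * (24 N^2) * N * N^2 (expand: 24 products) < 3^(6r).  So the number is ≤ 3 * 3^r ≤ C N^(5/6). -/
def S_BAD : Prop := ∃ C : ℝ, 0 < C ∧ ∀ N : ℕ, 1 ≤ N →
  (Nat.card {n : ℕ // n ≤ N ∧ n % 3 = 2 ∧ ∃ Y : ℤ, ¬ (3 : ℤ) ∣ Y ∧ Rel n Y} : ℝ) ≤
    C * (N : ℝ) ^ (5 / 6 : ℝ)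

/-- Main theorem, second form: for almost all primes q the polynomial B_{2q}(x) is irreducible.  Proof: for the
good q of FIN a proper factor f has degree 2 (LOC, TWO); f is irreducible and f(1-X) divides B_n too; if it were
not f, the product would be a factor of degree 4; so f is symmetric, q = 1 mod 3 by THR, and POL, CEN and BAD
bound the number of these q by C x^(5/6). -/
def S_FINB : Prop := ∀ ε : ℝ, 0 < ε → ∀ᶠ x : ℕ in Filter.atTop,
  (cnt x (fun q => ¬ Irreducible (Polynomial.bernoulli (2 * q))) : ℝ) ≤ ε * x / Real.log x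

end Pool.Agent.L7h58.BP
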