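import Pool.Agent.L7h58.BP.Lrg
import Pool.Agent.L7h58.BP.Stm3

set_option autoImplicit false

/-! The third theorem: a large irreducible factor for every large even n. -/

namespace Pool.Agent.L7h58.BP

open Finset Polynomial Filter

theorem s_ALB (hL : S_LOC) (hF : S_FAC) (hA : S_ALN) : S_ALB := by
  obtain ⟨N0, hN0⟩ := hA
  have h1 : ∀ᶠ n : ℕ in atTop, (3 : ℝ) * (n : ℝ) ^ (99 / 100 : ℝ) < n := by
    have h2 : Tendsto (fun n : ℕ => (n : ℝ) ^ (1 / 100 : ℝ)) atTop atTop :=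
      (tendsto_rpow_atTop (by norm_num)).comp tendsto_natCast_atTop_atTop
    filter_upwards [h2.eventually_gt_atTop 3, eventually_gt_atTop 0] with n hn hn0
    have hp : (0 : ℝ) < n := by exact_mod_cast hn0
    have h3 : (n : ℝ) ^ (1 / 100 : ℝ) * (n : ℝ) ^ (99 / 100 : ℝ) = n := by
      rw [← Real.rpow_add hp]; norm_num
    calc (3 : ℝ) * (n : ℝ) ^ (99 / 100 : ℝ) < (n : ℝ) ^ (1 / 100 : ℝ) * (n : ℝ) ^ (99 / 100 : ℝ) :=
          mul_lt_mul_of_pos_right hn (by positivity)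
      _ = n := h3
  obtain ⟨N1, hN1⟩ := eventually_atTop.1 h1
  refine ⟨max N0 N1, ?_⟩
  intro n hn hev
  obtain ⟨l, A, t, hl, hl2, hnn, htA, hAl, hb⟩ := hN0 n ((le_max_left _ _).trans hn)
  have h3n := hN1 n ((le_max_right _ _).trans hn)
  have h3 : 3 * (t * l) < n := by
    have : (3 : ℝ) * (t * l) < n := by linarith
    exact_mod_cast this
  obtain ⟨h, h1, h2, h4⟩ := hF (Polynomial.bernoulli n) (t * l) (bern_ne_zero _) (by
    rw [bern_natDegree]; exact h3) (fun f g hfg => hL n l A t hev hl hl2 hnn htA hAl f g hfg)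
  refine ⟨h, h1, h2, ?_⟩
  rw [bern_natDegree] at h4
  have h5 : n ≤ h.natDegree + t * l := by omega
  have h6 : (n : ℝ) ≤ h.natDegree + t * l := by exact_mod_cast h5
  linarith

end Pool.Agent.L7h58.BP
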