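import Pool.Agent.L7h58.BP.FinB

set_option autoImplicit false

/-! The results as relative densities in the set of primes. -/

namespace Pool.Agent.L7h58.BP

open Finset Polynomial Filter

theorem cnt_true (x : ℕ) : cnt x (fun _ => True) = Nat.primeCounting x := by
  rw [cnt_eq, Nat.primeCounting, Nat.primeCounting', Nat.count_eq_card_filter_range]
  congr 1
  apply filter_congr
  intro q _
  simp

theorem pi_lower : ∀ᶠ x : ℕ in atTop,
    (1 / 2 : ℝ) * (x / Real.log x) ≤ (cnt x (fun _ => True) : ℝ) := by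
  have h1 : ∀ᶠ x : ℕ in atTop, Real.log ((x : ℝ) + 1) ≤ (1 / 8) * x := by
    have h0 : ∀ᶠ y : ℝ in atTop, Real.log y ≤ (1 / 16) * y := by
      have h := Real.isLittleO_log_id_atTop.bound (show (0 : ℝ) < 1 / 16 by norm_num)
      filter_upwards [h, eventually_ge_atTop 1] with y hy hy1
      simp only [id, Real.norm_eq_abs] at hy
      rwa [abs_of_nonneg (Real.log_nonneg hy1), abs_of_nonneg (by linarith)] at hy
    have h2 : Tendsto (fun x : ℕ => (x : ℝ) + 1) atTop atTop :=
      tendsto_atTop_add_const_right _ _ tendsto_natCast_atTop_atTop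
    filter_upwards [h2.eventually h0, eventually_ge_atTop 1] with x hx hx1
    have : (1 : ℝ) ≤ x := by exact_mod_cast hx1
    linarith
  filter_upwards [h1, log_tendsto.eventually_gt_atTop 0] with x hx hl
  have h3 := Chebyshev.psi_ge x
  have h4 := Chebyshev.psi_le_primeCounting_mul_log x
  rw [cnt_true]
  have h5 : (0.6931471803 : ℝ) < Real.log 2 := Real.log_two_gt_d9
  have hx0 : (0 : ℝ) ≤ x := by positivity
  have h6 : (1 / 2 : ℝ) * x ≤ (Nat.primeCounting x : ℝ) * Real.log x := by nlinarith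
  rw [← mul_div_assoc, div_le_iff₀ hl]
  exact h6

/-- from the counting form to the relative density -/
theorem dens_one {P : ℕ → Prop}
    (h : ∀ ε : ℝ, 0 < ε → ∀ᶠ x : ℕ in atTop, (cnt x (fun q => ¬ P q) : ℝ) ≤ ε * x / Real.log x) :
    Tendsto (fun x : ℕ => (cnt x P : ℝ) / (cnt x (fun _ => True) : ℝ)) atTop (nhds 1) := by
  classical
  rw [Metric.tendsto_atTop]
  intro ε hε
  have h1 := h (ε / 4) (by positivity)
  obtain ⟨N, hN⟩ := eventually_atTop.1 (h1.and (pi_lower.and ((log_tendsto.eventually_gt_atTop 0).and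
    (eventually_gt_atTop 0))))
  refine ⟨N, fun x hx => ?_⟩
  obtain ⟨a1, a2, a3, a4⟩ := hN x hx
  have hx0 : (0 : ℝ) < x := by exact_mod_cast a4
  have hpos : 0 < (cnt x (fun _ => True) : ℝ) := lt_of_lt_of_le (by positivity) a2
  have hsum : cnt x P + cnt x (fun q => ¬ P q) = cnt x (fun _ => True) := by
    rw [cnt_eq, cnt_eq, cnt_eq]
    rw [← card_union_of_disjoint]
    · congr 1
      ext q
      simp only [mem_union, mem_filter, and_true]
      tauto
    · rw [Finset.disjoint_left]
      intro q hq hq'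
      rw [mem_filter] at hq hq'
      exact hq'.2.2 hq.2.2
  have hsum' : (cnt x P : ℝ) + (cnt x (fun q => ¬ P q) : ℝ) = (cnt x (fun _ => True) : ℝ) := by
    exact_mod_cast hsum
  have hdiff : (cnt x P : ℝ) / (cnt x (fun _ => True) : ℝ) - 1 =
      -((cnt x (fun q => ¬ P q) : ℝ) / (cnt x (fun _ => True) : ℝ)) := by
    field_simp
    linarith
  rw [Real.dist_eq, hdiff, abs_neg, abs_of_nonneg (by positivity), div_lt_iff₀ hpos]
  have a5 : ε / 4 * x / Real.log x = ε / 2 * ((1 / 2 : ℝ) * (x / Real.log x)) := by ring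
  calc (cnt x (fun q => ¬ P q) : ℝ) ≤ ε / 2 * ((1 / 2 : ℝ) * (x / Real.log x)) := by
        rw [← a5]; exact a1
    _ ≤ ε / 2 * (cnt x (fun _ => True) : ℝ) := mul_le_mul_of_nonneg_left a2 (by positivity)
    _ < ε * (cnt x (fun _ => True) : ℝ) := mul_lt_mul_of_pos_right (by linarith) hpos

end Pool.Agent.L7h58.BP
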