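import Pool.Agent.Cov.PNT
import Pool.Agent.L7h58.BP.Dens

set_option autoImplicit false

/-! Primes in residue classes: the proportion of the primes q = 2 mod 3 or q = 7 mod 9 is 2/3. -/

namespace Pool.Agent.L7h58.BP

open Finset Polynomial Filter Topology ArithmeticFunction

theorem class_sum_le {M : ℕ} (a : ZMod M) (N : ℕ) :
    ∑ k ∈ Icc 1 N, vonMangoldt.residueClass a k ≤
    (cnt N (fun q => (q : ZMod M) = a) : ℝ) * Real.log N +
      (Chebyshev.psi N - Chebyshev.theta N) := by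
  classical
  have h3 : ∀ k ∈ Icc 1 N, vonMangoldt.residueClass a k ≤
      (if k.Prime ∧ (k : ZMod M) = a then Real.log N else 0) +
        (vonMangoldt k - if k.Prime then Real.log k else 0) := by
    intro k hk
    rw [mem_Icc] at hk
    have hkN : Real.log k ≤ Real.log N :=
      Real.log_le_log (by exact_mod_cast (by omega : 0 < k)) (by exact_mod_cast hk.2)
    have hnn : 0 ≤ Real.log N := Real.log_nonneg (by exact_mod_cast (by omega : 1 ≤ N))
    by_cases hp : k.Prime
    · rw [if_pos hp, vonMangoldt_apply_prime hp, sub_self, add_zero]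
      by_cases hc : (k : ZMod M) = a
      · rw [if_pos ⟨hp, hc⟩]
        refine (vonMangoldt.residueClass_le _ _).trans ?_
        rw [vonMangoldt_apply_prime hp]
        exact hkN
      · rw [if_neg (fun h => hc h.2)]
        apply le_of_eq
        unfold vonMangoldt.residueClass
        rw [Set.indicator_of_notMem]
        intro h
        exact hc h
    · rw [if_neg hp, sub_zero]
      have : 0 ≤ (if k.Prime ∧ (k : ZMod M) = a then Real.log N else 0) := by
        split_ifs
        · exact hnn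
        · exact le_rfl
      have := vonMangoldt.residueClass_le a k
      linarith
  refine (sum_le_sum h3).trans ?_
  rw [sum_add_distrib]
  apply add_le_add
  · rw [← sum_filter, sum_const, nsmul_eq_mul]
    apply mul_le_mul_of_nonneg_right _ (Real.log_natCast_nonneg N)
    rw [cnt_eq]
    have : #((Icc 1 N).filter (fun k : ℕ => k.Prime ∧ (k : ZMod M) = a)) ≤
      #((range (N + 1)).filter (fun q : ℕ => q.Prime ∧ (q : ZMod M) = a)) := by
      apply card_le_card
      intro k hk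
      rw [mem_filter, mem_Icc] at hk
      rw [mem_filter, mem_range]
      exact ⟨by omega, hk.2⟩
    exact_mod_cast this
  · have h4 : Chebyshev.psi N - Chebyshev.theta N =
        ∑ k ∈ Icc 1 N, (vonMangoldt k - if k.Prime then Real.log k else 0) := by
      rw [sum_sub_distrib, ← sum_filter]
      unfold Chebyshev.psi Chebyshev.theta
      rw [Nat.floor_natCast]
      rfl
    rw [h4]

theorem class_lower {M : ℕ} [NeZero M] {a : ZMod M} (ha : IsUnit a) {δ : ℝ} (hδ : 0 < δ) :
    ∀ᶠ x : ℕ in atTop, ((M.totient : ℝ)⁻¹ - δ) * (x / Real.log x) ≤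
      (cnt x (fun q => (q : ZMod M) = a) : ℝ) := by
  have h0 := (Pool.Agent.Cov.PNT.pnt_residueClass ha).comp (tendsto_natCast_atTop_atTop (R := ℝ))
  have h1 := h0.eventually (Ioi_mem_nhds (show (M.totient : ℝ)⁻¹ - δ / 2 < (M.totient : ℝ)⁻¹ by
    linarith))
  obtain ⟨C, hC⟩ := Chebyshev.psi_sub_theta_le_mul_sqrt
  have h2 : ∀ᶠ x : ℕ in atTop, C * Real.sqrt x ≤ δ / 2 * x := by
    have h5 : Tendsto (fun x : ℕ => Real.sqrt x) atTop atTop :=
      Real.tendsto_sqrt_atTop.comp tendsto_natCast_atTop_atTop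
    filter_upwards [h5.eventually_ge_atTop (C / (δ / 2))] with x hx
    rw [div_le_iff₀ (by positivity)] at hx
    have h6 : Real.sqrt x * Real.sqrt x = x := Real.mul_self_sqrt (by positivity)
    nlinarith [Real.sqrt_nonneg (x : ℝ)]
  filter_upwards [h1, h2, eventually_ge_atTop 1, log_tendsto.eventually_gt_atTop 0]
    with x h1 h2 hx hl
  have hx0 : (0 : ℝ) < x := by exact_mod_cast (by omega : 0 < x)
  have h3 := class_sum_le a x
  have h4 := hC x
  have h1' : (M.totient : ℝ)⁻¹ - δ / 2 <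
      (∑ k ∈ Icc 1 x, vonMangoldt.residueClass a k) / x := by
    simpa [Function.comp] using h1
  rw [lt_div_iff₀ hx0] at h1'
  rw [← mul_div_assoc, div_le_iff₀ hl]
  nlinarith

theorem pi_upper {δ : ℝ} (hδ : 0 < δ) : ∀ᶠ x : ℕ in atTop,
    (cnt x (fun _ => True) : ℝ) ≤ (1 + δ) * (x / Real.log x) := by
  have h0 := Pool.Agent.Cov.PNT.pi_tendsto.comp (tendsto_natCast_atTop_atTop (R := ℝ))
  have h1 := h0.eventually (Iio_mem_nhds (show (1 : ℝ) < 1 + δ by linarith))
  filter_upwards [h1, eventually_ge_atTop 1, log_tendsto.eventually_gt_atTop 0] with x h1 hx hl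
  have hx0 : (0 : ℝ) < x := by exact_mod_cast (by omega : 0 < x)
  have h1' : (Nat.primeCounting x : ℝ) * Real.log x / x < 1 + δ := by
    simpa [Function.comp] using h1
  rw [div_lt_iff₀ hx0] at h1'
  rw [cnt_true, ← mul_div_assoc, le_div_iff₀ hl]
  exact h1'.le

theorem cnt_or {P Q : ℕ → Prop} (x : ℕ) (h : ∀ q, ¬ (P q ∧ Q q)) :
    cnt x (fun q => P q ∨ Q q) = cnt x P + cnt x Q := by
  classical
  rw [cnt_eq, cnt_eq, cnt_eq, ← card_union_of_disjoint]
  · congr 1
    ext q
    simp only [mem_union, mem_filter]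
    tauto
  · rw [Finset.disjoint_left]
    intro q hq hq'
    rw [mem_filter] at hq hq'
    exact h q ⟨hq.2.2, hq'.2.2⟩

/-- from the counting form to relative density zero -/
theorem dens_zero {P : ℕ → Prop}
    (h : ∀ ε : ℝ, 0 < ε → ∀ᶠ x : ℕ in atTop, (cnt x P : ℝ) ≤ ε * x / Real.log x) :
    Tendsto (fun x : ℕ => (cnt x P : ℝ) / (cnt x (fun _ => True) : ℝ)) atTop (nhds 0) := by
  rw [Metric.tendsto_atTop]
  intro ε hε
  have h1 := h (ε / 4) (by positivity)
  obtain ⟨N, hN⟩ := eventually_atTop.1 (h1.and (pi_lower.and ((log_tendsto.eventually_gt_atTop 0).and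
    (eventually_gt_atTop 0))))
  refine ⟨N, fun x hx => ?_⟩
  obtain ⟨a1, a2, a3, a4⟩ := hN x hx
  have hx0 : (0 : ℝ) < x := by exact_mod_cast a4
  have hpos : 0 < (cnt x (fun _ => True) : ℝ) := lt_of_lt_of_le (by positivity) a2
  rw [Real.dist_eq, sub_zero, abs_of_nonneg (by positivity), div_lt_iff₀ hpos]
  have a5 : ε / 4 * x / Real.log x = ε / 2 * ((1 / 2 : ℝ) * (x / Real.log x)) := by ring
  calc (cnt x P : ℝ) ≤ ε / 2 * ((1 / 2 : ℝ) * (x / Real.log x)) := by
        rw [← a5]; exact a1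
    _ ≤ ε / 2 * (cnt x (fun _ => True) : ℝ) := mul_le_mul_of_nonneg_left a2 (by positivity)
    _ < ε * (cnt x (fun _ => True) : ℝ) := mul_lt_mul_of_pos_right (by linarith) hpos

/-- at least `2/3 - ε` of the primes `q` have `q = 2 mod 3` or `q = 7 mod 9`, so if almost all of these have
the property `P`, at least `2/3 - ε` of all primes have it -/
theorem two_thirds {P : ℕ → Prop}
    (h : ∀ ε : ℝ, 0 < ε → ∀ᶠ x : ℕ in atTop,
      (cnt x (fun q => (q % 3 = 2 ∨ q % 9 = 7) ∧ ¬ P q) : ℝ) ≤ ε * x / Real.log x)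
    (ε : ℝ) (hε : 0 < ε) : ∀ᶠ x : ℕ in atTop,
    (2 / 3 - ε) * (cnt x (fun _ => True) : ℝ) ≤ (cnt x P : ℝ) := by
  have u1 : IsUnit (2 : ZMod 3) := by decide
  have u2 : IsUnit (7 : ZMod 9) := by decide
  have t1 : ((Nat.totient 3 : ℕ) : ℝ)⁻¹ = 1 / 2 := by
    rw [show Nat.totient 3 = 2 by decide]; norm_num
  have t2 : ((Nat.totient 9 : ℕ) : ℝ)⁻¹ = 1 / 6 := by
    rw [show Nat.totient 9 = 6 by decide]; norm_num
  have hδ : 0 < ε / 8 := by positivity
  filter_upwards [class_lower u1 hδ, class_lower u2 hδ, pi_upper hδ, h (ε / 8) hδ,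
    log_tendsto.eventually_gt_atTop 0] with x h1 h2 h3 h4 hl
  rw [t1] at h1
  rw [t2] at h2
  have e1 : cnt x (fun q => q % 3 = 2 ∨ q % 9 = 7) =
      cnt x (fun q => (q : ZMod 3) = 2) + cnt x (fun q => (q : ZMod 9) = 7) := by
    rw [cnt_or x (fun q hq => by omega)]
    have c1 : ∀ q : ℕ, q % 3 = 2 ↔ (q : ZMod 3) = 2 := by
      intro q
      have := ZMod.natCast_eq_natCast_iff' q 2 3
      simpa using this.symm
    have c2 : ∀ q : ℕ, q % 9 = 7 ↔ (q : ZMod 9) = 7 := by
      intro q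
      have := ZMod.natCast_eq_natCast_iff' q 7 9
      simpa using this.symm
    simp only [c1, c2]
  have e2 : cnt x (fun q => q % 3 = 2 ∨ q % 9 = 7) ≤
      cnt x P + cnt x (fun q => (q % 3 = 2 ∨ q % 9 = 7) ∧ ¬ P q) := by
    classical
    rw [cnt_eq, cnt_eq, cnt_eq]
    refine (card_le_card ?_).trans (card_union_le _ _)
    intro q hq
    simp only [mem_union, mem_filter] at hq ⊢
    tauto
  have e3 : (cnt x (fun q => q % 3 = 2 ∨ q % 9 = 7) : ℝ) ≤
      (cnt x P : ℝ) + (cnt x (fun q => (q % 3 = 2 ∨ q % 9 = 7) ∧ ¬ P q) : ℝ) := by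
    exact_mod_cast e2
  have e4 : (cnt x (fun q => q % 3 = 2 ∨ q % 9 = 7) : ℝ) =
      (cnt x (fun q => (q : ZMod 3) = 2) : ℝ) + (cnt x (fun q => (q : ZMod 9) = 7) : ℝ) := by
    exact_mod_cast e1
  have hx0 : 0 ≤ (x : ℝ) / Real.log x := by positivity
  have h4' : ε / 8 * x / Real.log x = ε / 8 * (x / Real.log x) := by ring
  rw [h4'] at h4
  set y := (x : ℝ) / Real.log x
  have h5 : (2 / 3 - 3 * (ε / 8)) * y ≤ (cnt x P : ℝ) := by nlinarith
  by_cases hε2 : 2 / 3 - ε ≤ 0
  · have : 0 ≤ (cnt x (fun _ => True) : ℝ) := by positivity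
    have : 0 ≤ (cnt x P : ℝ) := by positivity
    nlinarith
  · push Not at hε2
    refine le_trans ?_ h5
    refine le_trans (mul_le_mul_of_nonneg_left h3 hε2.le) ?_
    rw [← mul_assoc]
    apply mul_le_mul_of_nonneg_right _ hx0
    nlinarith

end Pool.Agent.L7h58.BP
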