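import Pool.Agent.L7h58.BP.Cnt

set_option autoImplicit false

/-! Degree of the Bernoulli polynomials and the algebraic end of the proof. -/

namespace Pool.Agent.L7h58.BP

open Finset Polynomial

theorem bern_coeff_top (n : ℕ) : (Polynomial.bernoulli n).coeff n = 1 := by
  rw [Polynomial.coeff_bernoulli]
  simp

theorem bern_ne_zero (n : ℕ) : Polynomial.bernoulli n ≠ 0 := by
  intro h
  have := bern_coeff_top n
  rw [h, coeff_zero] at this
  exact zero_ne_one this

theorem bern_natDegree (n : ℕ) : (Polynomial.bernoulli n).natDegree = n := by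
  apply le_antisymm
  · rw [natDegree_le_iff_coeff_eq_zero]
    intro N hN
    rw [Polynomial.coeff_bernoulli]
    simp [not_le.2 hN]
  · apply le_natDegree_of_ne_zero
    rw [bern_coeff_top]
    exact one_ne_zero

theorem bern_monic (n : ℕ) : (Polynomial.bernoulli n).Monic := by
  unfold Polynomial.Monic Polynomial.leadingCoeff
  rw [bern_natDegree, bern_coeff_top]

/-- LOC and TWO -/
theorem min_cases (hL : S_LOC) (hT : S_TWO) {e q N : ℕ} (he : 1 ≤ e) (hq : q.Prime) (hq2 : 2 < q)
    (hg : Good N (2 ^ e * q))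
    (ho : Real.sqrt N * (Real.log N) ^ 6 < (orderOf (2 : ZMod q) : ℝ)) (f g : ℚ[X])
    (hfg : Polynomial.bernoulli (2 ^ e * q) = f * g) :
    min f.natDegree g.natDegree = 0 ∨ min f.natDegree g.natDegree = 2 ^ e := by
  obtain ⟨l, A, t, hl, hl2, hn, htA, hAl, hb⟩ := hg
  have hev : Even (2 ^ e * q) := by
    apply Even.mul_right
    rw [Nat.even_pow]
    exact ⟨even_two, by omega⟩
  have h1 := hL _ l A t hev hl hl2 hn htA hAl f g hfg
  have h2 : min f.natDegree g.natDegree < orderOf (2 : ZMod q) := by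
    have h3 : ((min f.natDegree g.natDegree : ℕ) : ℝ) ≤ (t * l : ℝ) := by exact_mod_cast h1
    have h4 : ((min f.natDegree g.natDegree : ℕ) : ℝ) < (orderOf (2 : ZMod q) : ℝ) :=
      lt_of_le_of_lt (h3.trans hb) ho
    exact_mod_cast h4
  rcases le_total f.natDegree g.natDegree with h | h
  · rw [min_eq_left h] at h2 ⊢
    exact hT e q he hq hq2 f g hfg h2
  · rw [min_eq_right h] at h2 ⊢
    exact hT e q he hq hq2 g f (by rw [hfg, mul_comm]) h2

theorem big_factor (hL : S_LOC) (hT : S_TWO) (hF : S_FAC) {e q N : ℕ} (he : 1 ≤ e)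
    (hq : q.Prime) (hq3 : 3 < q) (hg : Good N (2 ^ e * q))
    (ho : Real.sqrt N * (Real.log N) ^ 6 < (orderOf (2 : ZMod q) : ℝ)) :
    ∃ h : ℚ[X], Irreducible h ∧ h ∣ Polynomial.bernoulli (2 ^ e * q) ∧
      2 ^ e * (q - 1) ≤ h.natDegree := by
  have hp : 0 < 2 ^ e := by positivity
  obtain ⟨h, h1, h2, h3⟩ := hF (Polynomial.bernoulli (2 ^ e * q)) (2 ^ e) (bern_ne_zero _) (by
    rw [bern_natDegree, mul_comm 3]
    exact Nat.mul_lt_mul_of_pos_left hq3 hp) (by
    intro f g hfg
    rcases min_cases hL hT he hq (by omega) hg ho f g hfg with h | h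
    · rw [h]; exact Nat.zero_le _
    · exact h.le)
  refine ⟨h, h1, h2, ?_⟩
  rw [bern_natDegree] at h3
  rw [Nat.mul_sub, mul_one]
  exact h3

theorem irred_two (hL : S_LOC) (hT : S_TWO) (hH : S_THR) {q N : ℕ}
    (hq : q.Prime) (hq3 : 3 < q) (hmod : q % 3 = 2) (hg : Good N (2 ^ 1 * q))
    (ho : Real.sqrt N * (Real.log N) ^ 6 < (orderOf (2 : ZMod q) : ℝ)) :
    Irreducible (Polynomial.bernoulli (2 * q)) := by
  have key : ∀ f g : ℚ[X], Polynomial.bernoulli (2 * q) = f * g →
      min f.natDegree g.natDegree = 0 := by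
    intro f g hfg
    rcases min_cases hL hT le_rfl hq (by omega) hg ho f g (by rw [pow_one]; exact hfg) with h | h
    · exact h
    · exfalso
      rw [pow_one] at h
      rcases le_total f.natDegree g.natDegree with h' | h'
      · rw [min_eq_left h'] at h
        exact hH q hq (by omega) hmod f g hfg h
      · rw [min_eq_right h'] at h
        exact hH q hq (by omega) hmod g f (by rw [hfg, mul_comm]) h
  have hne := bern_ne_zero (2 * q)
  refine ⟨?_, ?_⟩
  · intro hu
    have := natDegree_eq_zero_of_isUnit hu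
    rw [bern_natDegree] at this
    omega
  · intro f g hfg
    have hf0 : f ≠ 0 := by rintro rfl; rw [zero_mul] at hfg; exact hne hfg
    have hg0 : g ≠ 0 := by rintro rfl; rw [mul_zero] at hfg; exact hne hfg
    have h := key f g hfg
    rcases le_total f.natDegree g.natDegree with h' | h'
    · left
      rw [min_eq_left h'] at h
      rw [Polynomial.isUnit_iff_degree_eq_zero, degree_eq_natDegree hf0, h]
      rfl
    · right
      rw [min_eq_right h'] at h
      rw [Polynomial.isUnit_iff_degree_eq_zero, degree_eq_natDegree hg0, h]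
      rfl

end Pool.Agent.L7h58.BP
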