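import Pool.Agent.L7h58.BP.Stm

set_option autoImplicit false

/-! Basic lemmas on the counting function `cnt`. -/

namespace Pool.Agent.L7h58.BP

open Finset Polynomial

theorem cnt_finite (x : ℕ) (P : ℕ → Prop) : Finite {q : ℕ // q.Prime ∧ q ≤ x ∧ P q} := by
  have h : {q : ℕ | q.Prime ∧ q ≤ x ∧ P q}.Finite :=
    (Set.finite_Iic x).subset (fun q hq => hq.2.1)
  exact h.to_subtype

/-- `cnt` as the cardinality of a filter -/
theorem cnt_eq (x : ℕ) (P : ℕ → Prop) [DecidablePred P] :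
    cnt x P = ((range (x + 1)).filter (fun q => q.Prime ∧ P q)).card := by
  unfold cnt
  rw [Nat.subtype_card]
  intro q
  rw [mem_filter, mem_range]
  constructor
  · rintro ⟨h1, h2, h3⟩; exact ⟨h2, by omega, h3⟩
  · rintro ⟨h1, h2, h3⟩; exact ⟨by omega, h1, h3⟩

theorem cnt_mono {x : ℕ} {P Q : ℕ → Prop} (h : ∀ q, q.Prime → q ≤ x → P q → Q q) :
    cnt x P ≤ cnt x Q := by
  classical
  rw [cnt_eq, cnt_eq]
  apply card_le_card
  intro q hq
  rw [mem_filter, mem_range] at hq ⊢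
  exact ⟨hq.1, hq.2.1, h q hq.2.1 (by omega) hq.2.2⟩

theorem cnt_or_le (x : ℕ) (P Q : ℕ → Prop) : cnt x (fun q => P q ∨ Q q) ≤ cnt x P + cnt x Q := by
  classical
  rw [cnt_eq, cnt_eq, cnt_eq]
  refine le_trans (card_le_card ?_) (card_union_le _ _)
  intro q hq
  rw [mem_filter] at hq
  rw [mem_union, mem_filter, mem_filter]
  tauto

/-- `P` implies `Q ∨ R` on the primes up to `x` -/
theorem cnt_le_add {x : ℕ} {P Q R : ℕ → Prop} (h : ∀ q, q.Prime → q ≤ x → P q → Q q ∨ R q) :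
    cnt x P ≤ cnt x Q + cnt x R :=
  (cnt_mono h).trans (cnt_or_le x Q R)

theorem cnt_le_nat (x y : ℕ) : cnt x (fun q => q ≤ y) ≤ y := by
  rw [cnt_eq]
  calc _ ≤ (Icc 1 y).card := by
        apply card_le_card
        intro q hq
        rw [mem_filter] at hq
        rw [mem_Icc]
        exact ⟨hq.2.1.one_lt.le, hq.2.2⟩
    _ = y := by simp

/-- a union bound over a finite set -/
theorem cnt_le_sum {ι : Type*} (S : Finset ι) {x : ℕ} {P : ℕ → Prop} (Q : ι → ℕ → Prop)
    (h : ∀ q, q.Prime → q ≤ x → P q → ∃ i ∈ S, Q i q) :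
    cnt x P ≤ ∑ i ∈ S, cnt x (Q i) := by
  classical
  rw [cnt_eq]
  calc _ ≤ (S.biUnion (fun i => (range (x + 1)).filter (fun q => q.Prime ∧ Q i q))).card := by
        apply card_le_card
        intro q hq
        rw [mem_filter, mem_range] at hq
        obtain ⟨i, hi, hQ⟩ := h q hq.2.1 (by omega) hq.2.2
        rw [mem_biUnion]
        exact ⟨i, hi, by rw [mem_filter, mem_range]; exact ⟨hq.1, hq.2.1, hQ⟩⟩
    _ ≤ _ := by
        refine card_biUnion_le.trans (le_of_eq ?_)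
        apply sum_congr rfl
        intro i _
        rw [cnt_eq]

end Pool.Agent.L7h58.BP
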