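import Pool.Agent.L7h58.BP.Bas

set_option autoImplicit false

/-! The main theorem from its parts. -/

namespace Pool.Agent.L7h58.BP

open Finset Polynomial Filter

theorem log_tendsto : Tendsto (fun x : ℕ => Real.log (x : ℝ)) atTop atTop :=
  Real.tendsto_log_atTop.comp tendsto_natCast_atTop_atTop

theorem good_count (hV : S_LSV) (e : ℕ) {ε : ℝ} (hε : 0 < ε) : ∀ᶠ x : ℕ in atTop,
    (cnt x (fun q => ¬ Good (2 ^ e * x) (2 ^ e * q)) : ℝ) ≤ ε * x / Real.log x := by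
  obtain ⟨C, hC, hV⟩ := hV
  filter_upwards [eventually_ge_atTop 3, log_tendsto.eventually_ge_atTop (C * 2 ^ e / ε),
    log_tendsto.eventually_gt_atTop 0] with x hx hlog hlog0
  have hp : 0 < 2 ^ e := by positivity
  have hxN : x ≤ 2 ^ e * x := Nat.le_mul_of_pos_left x hp
  have h1 := hV (2 ^ e * x) (hx.trans hxN)
  have hfin : Finite {n : ℕ // 1 ≤ n ∧ n ≤ 2 ^ e * x ∧ ¬ Good (2 ^ e * x) n} := by
    have h : {n : ℕ | 1 ≤ n ∧ n ≤ 2 ^ e * x ∧ ¬ Good (2 ^ e * x) n}.Finite :=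
      (Set.finite_Iic (2 ^ e * x)).subset (fun q hq => hq.2.1)
    exact h.to_subtype
  have h2 : cnt x (fun q => ¬ Good (2 ^ e * x) (2 ^ e * q)) ≤
      Nat.card {n : ℕ // 1 ≤ n ∧ n ≤ 2 ^ e * x ∧ ¬ Good (2 ^ e * x) n} := by
    unfold cnt
    apply Nat.card_le_card_of_injective
      (fun q : {q : ℕ // q.Prime ∧ q ≤ x ∧ ¬ Good (2 ^ e * x) (2 ^ e * q)} =>
        (⟨2 ^ e * q.1, Nat.mul_pos hp q.2.1.pos, Nat.mul_le_mul_left _ q.2.2.1, q.2.2.2⟩ :
          {n : ℕ // 1 ≤ n ∧ n ≤ 2 ^ e * x ∧ ¬ Good (2 ^ e * x) n}))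
    intro a b hab
    have h3 : 2 ^ e * a.1 = 2 ^ e * b.1 := congrArg Subtype.val hab
    exact Subtype.ext (Nat.eq_of_mul_eq_mul_left hp h3)
  have h2' : (cnt x (fun q => ¬ Good (2 ^ e * x) (2 ^ e * q)) : ℝ) ≤
      (Nat.card {n : ℕ // 1 ≤ n ∧ n ≤ 2 ^ e * x ∧ ¬ Good (2 ^ e * x) n} : ℝ) := by exact_mod_cast h2
  refine h2'.trans (h1.trans ?_)
  have hx0 : (0 : ℝ) < x := by exact_mod_cast (by omega : 0 < x)
  have hlogN : Real.log (x : ℝ) ≤ Real.log ((2 ^ e * x : ℕ) : ℝ) :=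
    Real.log_le_log hx0 (by exact_mod_cast hxN)
  have h4 : C * ((2 ^ e * x : ℕ) : ℝ) / Real.log ((2 ^ e * x : ℕ) : ℝ) ^ 2 ≤
      C * ((2 ^ e * x : ℕ) : ℝ) / Real.log (x : ℝ) ^ 2 := by
    apply div_le_div_of_nonneg_left (by positivity) (by positivity)
    exact pow_le_pow_left₀ hlog0.le hlogN 2
  refine h4.trans ?_
  rw [div_le_div_iff₀ (by positivity) hlog0]
  push_cast
  have h5 : C * 2 ^ e ≤ ε * Real.log x := by
    rw [div_le_iff₀ hε] at hlog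
    linarith
  have h6 : 0 ≤ x * Real.log x := by positivity
  nlinarith [mul_le_mul_of_nonneg_right h5 h6]

theorem size_bound (e : ℕ) : ∀ᶠ x : ℕ in atTop,
    Real.sqrt ((2 ^ e * x : ℕ) : ℝ) * Real.log ((2 ^ e * x : ℕ) : ℝ) ^ 6 ≤
      Real.sqrt x * Real.log x ^ 7 := by
  filter_upwards [eventually_ge_atTop 1, log_tendsto.eventually_ge_atTop (e : ℝ),
    log_tendsto.eventually_ge_atTop (64 * 2 ^ e : ℝ)] with x hx hlog1 hlog2
  have hx0 : (0 : ℝ) < x := by exact_mod_cast (by omega : 0 < x)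
  have hp1 : (1 : ℝ) ≤ 2 ^ e := one_le_pow₀ (by norm_num)
  have hlx : 0 ≤ Real.log (x : ℝ) := by
    have : (0 : ℝ) ≤ 64 * 2 ^ e := by positivity
    linarith
  push_cast
  rw [Real.sqrt_mul (by positivity), Real.log_mul (by positivity) (by positivity), Real.log_pow]
  have h1 : Real.sqrt ((2 : ℝ) ^ e) ≤ 2 ^ e := by
    rw [Real.sqrt_le_left (by positivity)]
    nlinarith
  have hl2 : Real.log 2 ≤ 1 := by
    have := Real.log_two_lt_d9
    linarith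
  have h2 : (e : ℝ) * Real.log 2 + Real.log x ≤ 2 * Real.log x := by
    have : (e : ℝ) * Real.log 2 ≤ e * 1 := by
      apply mul_le_mul_of_nonneg_left hl2; positivity
    linarith
  have h20 : 0 ≤ (e : ℝ) * Real.log 2 + Real.log x := by
    have : 0 ≤ Real.log 2 := Real.log_nonneg (by norm_num)
    positivity
  have h3 : ((e : ℝ) * Real.log 2 + Real.log x) ^ 6 ≤ (2 * Real.log x) ^ 6 :=
    pow_le_pow_left₀ h20 h2 6
  have h4 : (2 * Real.log (x : ℝ)) ^ 6 = 64 * Real.log x ^ 6 := by ring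
  rw [h4] at h3
  have hs : 0 ≤ Real.sqrt (x : ℝ) := Real.sqrt_nonneg _
  calc Real.sqrt ((2 : ℝ) ^ e) * Real.sqrt x * ((e : ℝ) * Real.log 2 + Real.log x) ^ 6
      ≤ 2 ^ e * Real.sqrt x * (64 * Real.log x ^ 6) := by
        apply mul_le_mul (mul_le_mul_of_nonneg_right h1 hs) h3 (by positivity) (by positivity)
    _ = Real.sqrt x * Real.log x ^ 6 * (64 * 2 ^ e) := by ring
    _ ≤ Real.sqrt x * Real.log x ^ 6 * Real.log x := by
        apply mul_le_mul_of_nonneg_left hlog2; positivity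
    _ = _ := by ring

theorem small_count {ε : ℝ} (hε : 0 < ε) : ∀ᶠ x : ℕ in atTop,
    (3 : ℝ) ≤ ε * x / Real.log x := by
  have h1 : ∀ᶠ x : ℕ in atTop, Real.log (x : ℝ) ≤ (ε / 3) * x := by
    have h := (Real.isLittleO_log_id_atTop.comp_tendsto tendsto_natCast_atTop_atTop).bound
      (show (0 : ℝ) < ε / 3 by positivity)
    filter_upwards [h, eventually_ge_atTop 1] with x hx hx1
    have h2 : (1 : ℝ) ≤ x := by exact_mod_cast hx1
    simp only [Function.comp, id, Real.norm_eq_abs] at hx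
    rw [abs_of_nonneg (Real.log_nonneg h2), abs_of_nonneg (by positivity)] at hx
    exact hx
  filter_upwards [h1, log_tendsto.eventually_gt_atTop 0] with x h1 h2
  rw [le_div_iff₀ h2]
  linarith

/-- the exceptional primes -/
theorem exc_count (hV : S_LSV) (hO : S_ORD) (e : ℕ) {ε : ℝ} (hε : 0 < ε) : ∀ᶠ x : ℕ in atTop,
    (cnt x (fun q => ¬ (3 < q ∧ Good (2 ^ e * x) (2 ^ e * q) ∧
      Real.sqrt ((2 ^ e * x : ℕ) : ℝ) * Real.log ((2 ^ e * x : ℕ) : ℝ) ^ 6 <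
        (orderOf (2 : ZMod q) : ℝ))) : ℝ) ≤ ε * x / Real.log x := by
  have hε3 : 0 < ε / 3 := by positivity
  filter_upwards [good_count hV e hε3, hO (ε / 3) hε3, small_count hε3, size_bound e,
    log_tendsto.eventually_gt_atTop 0] with x h1 h2 h3 h4 h5
  have h6 : cnt x (fun q => ¬ (3 < q ∧ Good (2 ^ e * x) (2 ^ e * q) ∧
      Real.sqrt ((2 ^ e * x : ℕ) : ℝ) * Real.log ((2 ^ e * x : ℕ) : ℝ) ^ 6 <
        (orderOf (2 : ZMod q) : ℝ))) ≤ cnt x (fun q => q ≤ 3) +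
      (cnt x (fun q => ¬ Good (2 ^ e * x) (2 ^ e * q)) +
        cnt x (fun q => 2 < q ∧ (orderOf (2 : ZMod q) : ℝ) ≤ Real.sqrt x * (Real.log x) ^ 7)) := by
    refine (cnt_le_add (Q := fun q => q ≤ 3) (R := fun q => (¬ Good (2 ^ e * x) (2 ^ e * q)) ∨
      (2 < q ∧ (orderOf (2 : ZMod q) : ℝ) ≤ Real.sqrt x * (Real.log x) ^ 7)) ?_).trans
      (Nat.add_le_add_left (cnt_or_le _ _ _) _)
    intro q _ _ h
    by_cases h31 : q ≤ 3
    · exact Or.inl h31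
    · right
      by_cases hgd : Good (2 ^ e * x) (2 ^ e * q)
      · right
        refine ⟨by omega, ?_⟩
        by_contra hcon
        apply h
        refine ⟨by omega, hgd, ?_⟩
        push Not at hcon
        exact lt_of_le_of_lt h4 hcon
      · exact Or.inl hgd
  have h7 : (cnt x (fun q => q ≤ 3) : ℝ) ≤ 3 := by exact_mod_cast cnt_le_nat x 3
  have h6' : (cnt x (fun q => ¬ (3 < q ∧ Good (2 ^ e * x) (2 ^ e * q) ∧
      Real.sqrt ((2 ^ e * x : ℕ) : ℝ) * Real.log ((2 ^ e * x : ℕ) : ℝ) ^ 6 <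
        (orderOf (2 : ZMod q) : ℝ))) : ℝ) ≤ (cnt x (fun q => q ≤ 3) : ℝ) +
      ((cnt x (fun q => ¬ Good (2 ^ e * x) (2 ^ e * q)) : ℝ) +
        (cnt x (fun q => 2 < q ∧ (orderOf (2 : ZMod q) : ℝ) ≤ Real.sqrt x * (Real.log x) ^ 7) : ℝ)) := by
    exact_mod_cast h6
  have h8 : ε / 3 * x / Real.log x + (ε / 3 * x / Real.log x + ε / 3 * x / Real.log x) =
      ε * x / Real.log x := by
    field_simp
    ring
  linarith

theorem s_FIN (hL : S_LOC) (hT : S_TWO) (hH : S_THR) (hF : S_FAC) (hV : S_LSV) (hO : S_ORD) :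
    S_FIN := by
  refine ⟨?_, ?_⟩
  · intro e he ε hε
    filter_upwards [exc_count hV hO e hε] with x hx
    refine le_trans ?_ hx
    have : cnt x (fun q => ¬ ∃ h : ℚ[X], Irreducible h ∧
        h ∣ Polynomial.bernoulli (2 ^ e * q) ∧ 2 ^ e * (q - 1) ≤ h.natDegree) ≤
      cnt x (fun q => ¬ (3 < q ∧ Good (2 ^ e * x) (2 ^ e * q) ∧
        Real.sqrt ((2 ^ e * x : ℕ) : ℝ) * Real.log ((2 ^ e * x : ℕ) : ℝ) ^ 6 <
        (orderOf (2 : ZMod q) : ℝ))) := by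
      apply cnt_mono
      intro q hq _ hn h
      exact hn (big_factor hL hT hF he hq h.1 h.2.1 h.2.2)
    exact_mod_cast this
  · intro ε hε
    filter_upwards [exc_count hV hO 1 hε] with x hx
    refine le_trans ?_ hx
    have : cnt x (fun q => q % 3 = 2 ∧ ¬ Irreducible (Polynomial.bernoulli (2 * q))) ≤
      cnt x (fun q => ¬ (3 < q ∧ Good (2 ^ 1 * x) (2 ^ 1 * q) ∧
        Real.sqrt ((2 ^ 1 * x : ℕ) : ℝ) * Real.log ((2 ^ 1 * x : ℕ) : ℝ) ^ 6 <
        (orderOf (2 : ZMod q) : ℝ))) := by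
      apply cnt_mono
      rintro q hq _ ⟨hm, hn⟩ h
      exact hn (irred_two hL hT hH hq h.1 hm h.2.1 h.2.2)
    exact_mod_cast this

end Pool.Agent.L7h58.BP
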