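import Pool.Agent.L7h58.BP.Lrg
import Pool.Agent.L7h58.BP.Stm2

set_option autoImplicit false

/-! Irreducibility of `B_{2q}` for almost all primes `q`, from the parts. -/

namespace Pool.Agent.L7h58.BP

open Finset Polynomial Filter

/-- the good primes -/
def GoodPrime (N q : ℕ) : Prop := 3 < q ∧ Good N (2 ^ 1 * q) ∧
  Real.sqrt N * (Real.log N) ^ 6 < (orderOf (2 : ZMod q) : ℝ)

theorem deg_cases (hL : S_LOC) (hT : S_TWO) {N q : ℕ} (hq : q.Prime) (hg : GoodPrime N q)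
    (f g : ℚ[X]) (hfg : Polynomial.bernoulli (2 * q) = f * g) :
    min f.natDegree g.natDegree = 0 ∨ min f.natDegree g.natDegree = 2 := by
  have h := min_cases hL hT le_rfl hq (by have := hg.1; omega) hg.2.1 hg.2.2 f g
    (by rw [pow_one]; exact hfg)
  rwa [pow_one] at h

theorem natDegree_mul_eq {q : ℕ} {f g : ℚ[X]} (hfg : Polynomial.bernoulli (2 * q) = f * g) :
    f.natDegree + g.natDegree = 2 * q ∧ f ≠ 0 ∧ g ≠ 0 := by
  have hne := bern_ne_zero (2 * q)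
  have hf0 : f ≠ 0 := by rintro rfl; rw [zero_mul] at hfg; exact hne hfg
  have hg0 : g ≠ 0 := by rintro rfl; rw [mul_zero] at hfg; exact hne hfg
  refine ⟨?_, hf0, hg0⟩
  rw [← natDegree_mul hf0 hg0, ← hfg, bern_natDegree]

theorem natDegree_pos_of_not_isUnit {f : ℚ[X]} (hf0 : f ≠ 0) (hf : ¬ IsUnit f) :
    0 < f.natDegree := by
  rcases Nat.eq_zero_or_pos f.natDegree with h | h
  · exfalso
    apply hf
    rw [Polynomial.isUnit_iff_degree_eq_zero, degree_eq_natDegree hf0, h]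
    rfl
  · exact h

/-- a divisor of degree 2 is irreducible -/
theorem quad_irred (hL : S_LOC) (hT : S_TWO) {N q : ℕ} (hq : q.Prime) (hg : GoodPrime N q)
    {f : ℚ[X]} (hf : f ∣ Polynomial.bernoulli (2 * q)) (h2 : f.natDegree = 2) : Irreducible f := by
  obtain ⟨g, hfg⟩ := hf
  obtain ⟨hdeg, hf0, hg0⟩ := natDegree_mul_eq hfg
  refine ⟨?_, ?_⟩
  · intro hu
    rw [natDegree_eq_zero_of_isUnit hu] at h2
    omega
  · intro a b hab
    by_contra hcon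
    push Not at hcon
    have ha0 : a ≠ 0 := by rintro rfl; rw [zero_mul] at hab; exact hf0 hab
    have hb0 : b ≠ 0 := by rintro rfl; rw [mul_zero] at hab; exact hf0 hab
    have hda := natDegree_pos_of_not_isUnit ha0 hcon.1
    have hdb := natDegree_pos_of_not_isUnit hb0 hcon.2
    have hsum : a.natDegree + b.natDegree = 2 := by rw [← natDegree_mul ha0 hb0, ← hab, h2]
    have hfac : Polynomial.bernoulli (2 * q) = a * (b * g) := by rw [hfg, hab, mul_assoc]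
    have hc := deg_cases hL hT hq hg a (b * g) hfac
    rw [natDegree_mul hb0 hg0] at hc
    have := hg.1
    omega

theorem comp_dvd {q : ℕ} {f : ℚ[X]} (hf : f ∣ Polynomial.bernoulli (2 * q)) :
    f.comp (1 - X) ∣ Polynomial.bernoulli (2 * q) := by
  obtain ⟨g, hfg⟩ := hf
  refine ⟨g.comp (1 - X), ?_⟩
  rw [← mul_comp, ← hfg, Polynomial.bernoulli_comp_one_sub_X]
  simp

theorem natDegree_one_sub_X : (1 - X : ℚ[X]).natDegree = 1 := by
  rw [show (1 - X : ℚ[X]) = C (-1) * X + C 1 by simp; ring]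
  exact natDegree_linear (by norm_num)

theorem leadingCoeff_one_sub_X : (1 - X : ℚ[X]).leadingCoeff = -1 := by
  rw [show (1 - X : ℚ[X]) = C (-1) * X + C 1 by simp; ring]
  exact leadingCoeff_linear (by norm_num)

theorem quad_symm (hL : S_LOC) (hT : S_TWO) {N q : ℕ} (hq : q.Prime) (hg : GoodPrime N q)
    {f : ℚ[X]} (hf : f ∣ Polynomial.bernoulli (2 * q)) (h2 : f.natDegree = 2) :
    f.comp (1 - X) = f := by
  have hf' := comp_dvd hf
  have hd' : (f.comp (1 - X)).natDegree = 2 := by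
    rw [natDegree_comp, natDegree_one_sub_X, h2]
  have hi := quad_irred hL hT hq hg hf h2
  have hi' := quad_irred hL hT hq hg hf' hd'
  have hass : Associated f (f.comp (1 - X)) := by
    by_contra hna
    have hcop : IsCoprime f (f.comp (1 - X)) := by
      rw [hi.coprime_iff_not_dvd]
      intro hdvd
      exact hna (hi.associated_of_dvd hi' hdvd)
    obtain ⟨g, hfg⟩ := hcop.mul_dvd hf hf'
    obtain ⟨hdeg, h0, hg0⟩ := natDegree_mul_eq hfg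
    have h4 : (f * f.comp (1 - X)).natDegree = 4 := by
      rw [natDegree_mul hi.ne_zero hi'.ne_zero, h2, hd']
    have hc := deg_cases hL hT hq hg _ g hfg
    rw [h4] at hc hdeg
    have := hg.1
    omega
  obtain ⟨u, hu⟩ := hass
  obtain ⟨r, hr, hru⟩ := Polynomial.isUnit_iff.1 u.isUnit
  have hl : (f.comp (1 - X)).leadingCoeff = f.leadingCoeff := by
    rw [leadingCoeff_comp (by rw [natDegree_one_sub_X]; norm_num), leadingCoeff_one_sub_X, h2]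
    norm_num
  rw [← hru] at hu
  have hl2 : f.leadingCoeff * r = f.leadingCoeff := by
    have h5 : (f * C r).leadingCoeff = f.leadingCoeff := by rw [hu, hl]
    rwa [leadingCoeff_mul, leadingCoeff_C] at h5
  have hf0 : f.leadingCoeff ≠ 0 := leadingCoeff_ne_zero.2 hi.ne_zero
  have hr1 : r = 1 := by
    have : f.leadingCoeff * r = f.leadingCoeff * 1 := by rw [hl2, mul_one]
    exact mul_left_cancel₀ hf0 this
  rw [← hu, hr1, C_1, mul_one]

theorem exists_quad (hL : S_LOC) (hT : S_TWO) {N q : ℕ} (hq : q.Prime) (hg : GoodPrime N q)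
    (hn : ¬ Irreducible (Polynomial.bernoulli (2 * q))) :
    ∃ f : ℚ[X], f ∣ Polynomial.bernoulli (2 * q) ∧ f.natDegree = 2 := by
  by_contra hcon
  push Not at hcon
  apply hn
  refine ⟨?_, ?_⟩
  · intro hu
    have := natDegree_eq_zero_of_isUnit hu
    rw [bern_natDegree] at this
    have := hg.1
    omega
  · intro f g hfg
    obtain ⟨hdeg, hf0, hg0⟩ := natDegree_mul_eq hfg
    by_contra hcon2
    push Not at hcon2
    have hda := natDegree_pos_of_not_isUnit hf0 hcon2.1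
    have hdb := natDegree_pos_of_not_isUnit hg0 hcon2.2
    have hc := deg_cases hL hT hq hg f g hfg
    have h1 := hcon f ⟨g, hfg⟩
    have h2 := hcon g ⟨f, by rw [hfg, mul_comm]⟩
    omega

/-- the relation for the exceptional good primes -/
theorem exc_rel (hL : S_LOC) (hT : S_TWO) (hH : S_THR) (hP : S_POL) (hC : S_CEN) {N q : ℕ}
    (hq : q.Prime) (hg : GoodPrime N q) (hn : ¬ Irreducible (Polynomial.bernoulli (2 * q))) :
    (2 * q) % 3 = 2 ∧ ∃ Y : ℤ, ¬ (3 : ℤ) ∣ Y ∧ Rel (2 * q) Y := by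
  obtain ⟨f, hf, h2⟩ := exists_quad hL hT hq hg hn
  have hq3 := hg.1
  have hmod : q % 3 ≠ 2 := by
    intro hm
    obtain ⟨g, hfg⟩ := hf
    exact hH q hq (by omega) hm f g hfg h2
  have hmod0 : q % 3 ≠ 0 := by
    intro hm
    have h3 : 3 ∣ q := Nat.dvd_of_mod_eq_zero hm
    rcases (Nat.dvd_prime hq).1 h3 with h | h <;> omega
  refine ⟨by omega, ?_⟩
  obtain ⟨Y, hY, hd⟩ := hP q f hq hq3 h2 (quad_symm hL hT hq hg hf h2) hf
  refine ⟨Y, hY, hC (2 * q) Y (even_two_mul q) (by omega) ?_ hd⟩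
  rintro rfl
  exact hY (dvd_zero 3)

theorem pow_small {C ε : ℝ} (hC : 0 < C) (hε : 0 < ε) : ∀ᶠ x : ℕ in atTop,
    C * (((2 * x : ℕ) : ℝ)) ^ (5 / 6 : ℝ) ≤ ε * x / Real.log x := by
  have h0 : (fun x : ℝ => Real.log x) =o[atTop] fun x : ℝ => x ^ (1 / 6 : ℝ) :=
    isLittleO_log_rpow_atTop (by norm_num)
  have h := (h0.comp_tendsto tendsto_natCast_atTop_atTop).bound
    (show (0 : ℝ) < ε / (2 * C) by positivity)
  filter_upwards [h, eventually_ge_atTop 1, log_tendsto.eventually_gt_atTop 0] with x hx hx1 hl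
  have h2 : (1 : ℝ) ≤ x := by exact_mod_cast hx1
  have hx0 : (0 : ℝ) < x := by linarith
  simp only [Function.comp, Real.norm_eq_abs] at hx
  rw [abs_of_pos hl, abs_of_nonneg (by positivity)] at hx
  have h3 : (((2 * x : ℕ) : ℝ)) ^ (5 / 6 : ℝ) ≤ 2 * (x : ℝ) ^ (5 / 6 : ℝ) := by
    push_cast
    rw [Real.mul_rpow (by norm_num) hx0.le]
    apply mul_le_mul_of_nonneg_right _ (by positivity)
    calc (2 : ℝ) ^ (5 / 6 : ℝ) ≤ (2 : ℝ) ^ (1 : ℝ) :=
          Real.rpow_le_rpow_of_exponent_le (by norm_num) (by norm_num)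
      _ = 2 := Real.rpow_one 2
  have h4 : (x : ℝ) ^ (5 / 6 : ℝ) * (x : ℝ) ^ (1 / 6 : ℝ) = x := by
    rw [← Real.rpow_add hx0]
    norm_num
  rw [le_div_iff₀ hl]
  calc C * (((2 * x : ℕ) : ℝ)) ^ (5 / 6 : ℝ) * Real.log x
      ≤ C * (2 * (x : ℝ) ^ (5 / 6 : ℝ)) * (ε / (2 * C) * (x : ℝ) ^ (1 / 6 : ℝ)) := by
        apply mul_le_mul (mul_le_mul_of_nonneg_left h3 hC.le) hx hl.le (by positivity)
    _ = ε * ((x : ℝ) ^ (5 / 6 : ℝ) * (x : ℝ) ^ (1 / 6 : ℝ)) := by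
        field_simp
    _ = ε * x := by rw [h4]

theorem s_FINB (hL : S_LOC) (hT : S_TWO) (hH : S_THR) (hV : S_LSV) (hO : S_ORD) (hP : S_POL)
    (hC : S_CEN) (hB : S_BAD) : S_FINB := by
  intro ε hε
  have hε2 : 0 < ε / 2 := by positivity
  obtain ⟨K, hK, hB⟩ := hB
  filter_upwards [exc_count hV hO 1 hε2, pow_small hK hε2, eventually_ge_atTop 1] with x h1 h2 hx1
  have hfin : Finite {n : ℕ // n ≤ 2 * x ∧ n % 3 = 2 ∧ ∃ Y : ℤ, ¬ (3 : ℤ) ∣ Y ∧ Rel n Y} := by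
    have h : {n : ℕ | n ≤ 2 * x ∧ n % 3 = 2 ∧ ∃ Y : ℤ, ¬ (3 : ℤ) ∣ Y ∧ Rel n Y}.Finite :=
      (Set.finite_Iic (2 * x)).subset (fun q hq => hq.1)
    exact h.to_subtype
  have h3 : cnt x (fun q => (2 * q) % 3 = 2 ∧ ∃ Y : ℤ, ¬ (3 : ℤ) ∣ Y ∧ Rel (2 * q) Y) ≤
      Nat.card {n : ℕ // n ≤ 2 * x ∧ n % 3 = 2 ∧ ∃ Y : ℤ, ¬ (3 : ℤ) ∣ Y ∧ Rel n Y} := by
    unfold cnt
    apply Nat.card_le_card_of_injective
      (fun q : {q : ℕ // q.Prime ∧ q ≤ x ∧ ((2 * q) % 3 = 2 ∧ ∃ Y : ℤ, ¬ (3 : ℤ) ∣ Y ∧ Rel (2 * q) Y)} =>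
        (⟨2 * q.1, Nat.mul_le_mul_left _ q.2.2.1, q.2.2.2⟩ :
          {n : ℕ // n ≤ 2 * x ∧ n % 3 = 2 ∧ ∃ Y : ℤ, ¬ (3 : ℤ) ∣ Y ∧ Rel n Y}))
    intro a b hab
    have h3 : 2 * a.1 = 2 * b.1 := congrArg Subtype.val hab
    exact Subtype.ext (by omega)
  have h4 := hB (2 * x) (by omega)
  have h5 : cnt x (fun q => ¬ Irreducible (Polynomial.bernoulli (2 * q))) ≤
      cnt x (fun q => ¬ (3 < q ∧ Good (2 ^ 1 * x) (2 ^ 1 * q) ∧
        Real.sqrt ((2 ^ 1 * x : ℕ) : ℝ) * Real.log ((2 ^ 1 * x : ℕ) : ℝ) ^ 6 <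
        (orderOf (2 : ZMod q) : ℝ))) +
      cnt x (fun q => (2 * q) % 3 = 2 ∧ ∃ Y : ℤ, ¬ (3 : ℤ) ∣ Y ∧ Rel (2 * q) Y) := by
    apply cnt_le_add
    intro q hq _ hn
    by_cases hg : 3 < q ∧ Good (2 ^ 1 * x) (2 ^ 1 * q) ∧
        Real.sqrt ((2 ^ 1 * x : ℕ) : ℝ) * Real.log ((2 ^ 1 * x : ℕ) : ℝ) ^ 6 <
        (orderOf (2 : ZMod q) : ℝ)
    · right
      exact exc_rel hL hT hH hP hC hq hg hn
    · exact Or.inl hg
  have h3' : (cnt x (fun q => (2 * q) % 3 = 2 ∧ ∃ Y : ℤ, ¬ (3 : ℤ) ∣ Y ∧ Rel (2 * q) Y) : ℝ) ≤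
      (Nat.card {n : ℕ // n ≤ 2 * x ∧ n % 3 = 2 ∧ ∃ Y : ℤ, ¬ (3 : ℤ) ∣ Y ∧ Rel n Y} : ℝ) := by
    exact_mod_cast h3
  have h5' : (cnt x (fun q => ¬ Irreducible (Polynomial.bernoulli (2 * q))) : ℝ) ≤
      (cnt x (fun q => ¬ (3 < q ∧ Good (2 ^ 1 * x) (2 ^ 1 * q) ∧
        Real.sqrt ((2 ^ 1 * x : ℕ) : ℝ) * Real.log ((2 ^ 1 * x : ℕ) : ℝ) ^ 6 <
        (orderOf (2 : ZMod q) : ℝ))) : ℝ) +
      (cnt x (fun q => (2 * q) % 3 = 2 ∧ ∃ Y : ℤ, ¬ (3 : ℤ) ∣ Y ∧ Rel (2 * q) Y) : ℝ) := by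
    exact_mod_cast h5
  have h6 : ε / 2 * x / Real.log x + ε / 2 * x / Real.log x = ε * x / Real.log x := by ring
  exact h5'.trans ((add_le_add h1 (h3'.trans (h4.trans h2))).trans (le_of_eq h6))

end Pool.Agent.L7h58.BP
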