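import Pool.Agent.L7h58.BP.Fin

set_option autoImplicit false

/-! The second theorem: a large irreducible factor for almost all even n. -/

namespace Pool.Agent.L7h58.BP

open Finset Polynomial Filter

/-- a good even `n` with `3 √N (log N)^6 < n` has a large irreducible factor -/
theorem good_factor (hL : S_LOC) (hF : S_FAC) {n N : ℕ} (hn : Even n) (hg : Good N n)
    (hN : 3 * (Real.sqrt N * (Real.log N) ^ 6) < n) :
    ∃ h : ℚ[X], Irreducible h ∧ h ∣ Polynomial.bernoulli n ∧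
      (n : ℝ) - Real.sqrt N * (Real.log N) ^ 6 ≤ h.natDegree := by
  obtain ⟨l, A, t, hl, hl2, hnn, htA, hAl, hb⟩ := hg
  have h3 : 3 * (t * l) < n := by
    have : (3 : ℝ) * (t * l) < n := by linarith
    exact_mod_cast this
  obtain ⟨h, h1, h2, h4⟩ := hF (Polynomial.bernoulli n) (t * l) (bern_ne_zero _) (by
    rw [bern_natDegree]; exact h3) (fun f g hfg => hL n l A t hn hl hl2 hnn htA hAl f g hfg)
  refine ⟨h, h1, h2, ?_⟩
  rw [bern_natDegree] at h4
  have h5 : n ≤ h.natDegree + t * l := by omega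
  have h6 : (n : ℝ) ≤ h.natDegree + t * l := by exact_mod_cast h5
  linarith

theorem log_pow_small (k : ℕ) {c : ℝ} (hc : 0 < c) : ∀ᶠ x : ℕ in atTop,
    Real.log (x : ℝ) ^ k ≤ c * Real.sqrt x := by
  have h0 : (fun x : ℝ => Real.log x ^ k) =o[atTop] fun x : ℝ => x ^ (1 / 2 : ℝ) := by
    have h := isLittleO_log_rpow_rpow_atTop (s := 1 / 2) (k : ℝ) (by norm_num)
    simpa only [Real.rpow_natCast] using h
  have h := (h0.comp_tendsto tendsto_natCast_atTop_atTop).bound hc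
  filter_upwards [h, eventually_ge_atTop 1] with x hx hx1
  have h2 : (1 : ℝ) ≤ x := by exact_mod_cast hx1
  simp only [Function.comp, Real.norm_eq_abs] at hx
  rw [abs_of_nonneg (pow_nonneg (Real.log_nonneg h2) k), abs_of_nonneg (by positivity),
    ← Real.sqrt_eq_rpow] at hx
  exact hx

theorem s_LRG (hL : S_LOC) (hF : S_FAC) (hV : S_LSV) : S_LRG := by
  obtain ⟨C, hC, hV⟩ := hV
  have hev : ∀ᶠ N : ℕ in atTop, Real.log (N : ℝ) ^ 8 ≤ (1 / 4) * Real.sqrt N :=
    log_pow_small 8 (by norm_num)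
  obtain ⟨N0, hN0⟩ := Filter.eventually_atTop.1 hev
  have hfin : ∀ N : ℕ, Finite {n : ℕ // 1 ≤ n ∧ n ≤ N ∧ Even n ∧ ¬ ∃ h : ℚ[X], Irreducible h ∧
      h ∣ Polynomial.bernoulli n ∧
      (n : ℝ) - Real.sqrt N * (Real.log N) ^ 6 ≤ h.natDegree} := by
    intro N
    have h : {n : ℕ | 1 ≤ n ∧ n ≤ N ∧ Even n ∧ ¬ ∃ h : ℚ[X], Irreducible h ∧
      h ∣ Polynomial.bernoulli n ∧
      (n : ℝ) - Real.sqrt N * (Real.log N) ^ 6 ≤ h.natDegree}.Finite :=
      (Set.finite_Iic N).subset (fun q hq => hq.2.1)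
    exact h.to_subtype
  have hcard : ∀ N : ℕ, Nat.card {n : ℕ // 1 ≤ n ∧ n ≤ N ∧ Even n ∧ ¬ ∃ h : ℚ[X], Irreducible h ∧
      h ∣ Polynomial.bernoulli n ∧
      (n : ℝ) - Real.sqrt N * (Real.log N) ^ 6 ≤ h.natDegree} ≤ N := by
    intro N
    have h := Nat.card_le_card_of_injective
      (fun q : {n : ℕ // 1 ≤ n ∧ n ≤ N ∧ Even n ∧ ¬ ∃ h : ℚ[X], Irreducible h ∧
        h ∣ Polynomial.bernoulli n ∧
        (n : ℝ) - Real.sqrt N * (Real.log N) ^ 6 ≤ h.natDegree} =>
        (⟨q.1 - 1, by have := q.2.1; have := q.2.2.1; omega⟩ : Fin N)) (by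
        intro a b hab
        have h1 := congrArg Fin.val hab
        simp only at h1
        have ha := a.2.1
        have hb := b.2.1
        apply Subtype.ext
        omega)
    simpa using h
  have hlog3 : ∀ N : ℕ, 3 ≤ N → 0 < Real.log (N : ℝ) := by
    intro N hN
    apply Real.log_pos
    have : (3 : ℝ) ≤ N := by exact_mod_cast hN
    linarith
  refine ⟨C + 1 + Real.log (N0 + 3) ^ 2, by positivity, ?_⟩
  intro N hN
  have hl := hlog3 N hN
  have hNr : (0 : ℝ) < N := by exact_mod_cast (by omega : 0 < N)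
  by_cases hNN : N0 ≤ N
  · have hb := hN0 N hNN
    -- the exceptional n
    have hmain : Nat.card {n : ℕ // 1 ≤ n ∧ n ≤ N ∧ Even n ∧ ¬ ∃ h : ℚ[X], Irreducible h ∧
        h ∣ Polynomial.bernoulli n ∧
        (n : ℝ) - Real.sqrt N * (Real.log N) ^ 6 ≤ h.natDegree} ≤
        Nat.card {n : ℕ // 1 ≤ n ∧ n ≤ N ∧ ¬ Good N n} + ⌊(N : ℝ) / Real.log N ^ 2⌋₊ := by
      classical
      have hc1 : Nat.card {n : ℕ // 1 ≤ n ∧ n ≤ N ∧ Even n ∧ ¬ ∃ h : ℚ[X], Irreducible h ∧
          h ∣ Polynomial.bernoulli n ∧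
          (n : ℝ) - Real.sqrt N * (Real.log N) ^ 6 ≤ h.natDegree} =
          ((Icc 1 N).filter (fun n : ℕ => Even n ∧ ¬ ∃ h : ℚ[X], Irreducible h ∧
          h ∣ Polynomial.bernoulli n ∧
          (n : ℝ) - Real.sqrt N * (Real.log N) ^ 6 ≤ h.natDegree)).card := by
        rw [Nat.subtype_card]
        intro q
        rw [mem_filter, mem_Icc]
        tauto
      have hc2 : Nat.card {n : ℕ // 1 ≤ n ∧ n ≤ N ∧ ¬ Good N n} =
          ((Icc 1 N).filter (fun n : ℕ => ¬ Good N n)).card := by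
        rw [Nat.subtype_card]
        intro q
        rw [mem_filter, mem_Icc]
        tauto
      rw [hc1, hc2]
      have hc3 : (Icc 1 ⌊(N : ℝ) / Real.log N ^ 2⌋₊).card = ⌊(N : ℝ) / Real.log N ^ 2⌋₊ := by simp
      rw [← hc3]
      refine le_trans (card_le_card ?_) (card_union_le _ _)
      intro n hn
      rw [mem_filter, mem_Icc] at hn
      rw [mem_union, mem_filter, mem_Icc, mem_Icc]
      by_cases hgd : Good N n
      · right
        refine ⟨hn.1.1, ?_⟩
        apply Nat.le_floor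
        by_contra hcon
        push Not at hcon
        apply hn.2.2
        apply good_factor hL hF hn.2.1 hgd
        refine lt_trans ?_ hcon
        rw [lt_div_iff₀ (by positivity)]
        have h1 : 3 * (Real.sqrt N * Real.log N ^ 6) * Real.log N ^ 2 =
            3 * Real.sqrt N * Real.log N ^ 8 := by ring
        rw [h1]
        have hs : Real.sqrt N * Real.sqrt N = N := Real.mul_self_sqrt hNr.le
        have hs0 : 0 < Real.sqrt (N : ℝ) := Real.sqrt_pos.2 hNr
        calc 3 * Real.sqrt N * Real.log N ^ 8 ≤ 3 * Real.sqrt N * ((1 / 4) * Real.sqrt N) :=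
              mul_le_mul_of_nonneg_left hb (by positivity)
          _ = (3 / 4) * (Real.sqrt N * Real.sqrt N) := by ring
          _ = (3 / 4) * N := by rw [hs]
          _ < N := by linarith
      · left
        exact ⟨hn.1, hgd⟩
    have hmain' : (Nat.card {n : ℕ // 1 ≤ n ∧ n ≤ N ∧ Even n ∧ ¬ ∃ h : ℚ[X], Irreducible h ∧
        h ∣ Polynomial.bernoulli n ∧
        (n : ℝ) - Real.sqrt N * (Real.log N) ^ 6 ≤ h.natDegree} : ℝ) ≤
        (Nat.card {n : ℕ // 1 ≤ n ∧ n ≤ N ∧ ¬ Good N n} : ℝ) +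
        (⌊(N : ℝ) / Real.log N ^ 2⌋₊ : ℝ) := by exact_mod_cast hmain
    have h1 := hV N hN
    have h2 : (⌊(N : ℝ) / Real.log N ^ 2⌋₊ : ℝ) ≤ (N : ℝ) / Real.log N ^ 2 :=
      Nat.floor_le (by positivity)
    calc _ ≤ C * N / Real.log N ^ 2 + (N : ℝ) / Real.log N ^ 2 := by linarith
      _ = (C + 1) * N / Real.log N ^ 2 := by ring
      _ ≤ _ := by
        apply div_le_div_of_nonneg_right _ (by positivity)
        apply mul_le_mul_of_nonneg_right _ hNr.le
        have : 0 ≤ Real.log (N0 + 3) ^ 2 := by positivity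
        linarith
  · push Not at hNN
    have h1 : (Nat.card {n : ℕ // 1 ≤ n ∧ n ≤ N ∧ Even n ∧ ¬ ∃ h : ℚ[X], Irreducible h ∧
        h ∣ Polynomial.bernoulli n ∧
        (n : ℝ) - Real.sqrt N * (Real.log N) ^ 6 ≤ h.natDegree} : ℝ) ≤ N := by
      exact_mod_cast hcard N
    refine h1.trans ?_
    rw [le_div_iff₀ (by positivity)]
    have h2 : Real.log (N : ℝ) ≤ Real.log (N0 + 3) := by
      apply Real.log_le_log hNr
      have : (N : ℝ) ≤ N0 := by exact_mod_cast hNN.le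
      linarith
    have h3 : Real.log (N : ℝ) ^ 2 ≤ Real.log (N0 + 3) ^ 2 := pow_le_pow_left₀ hl.le h2 2
    have h4 : Real.log (N : ℝ) ^ 2 ≤ C + 1 + Real.log (N0 + 3) ^ 2 := by linarith
    nlinarith

end Pool.Agent.L7h58.BP
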