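import Pool.Agent.L7h58.BP.Stm2

set_option autoImplicit false

/-!
# Project BP, fourth stage: fixed multiples of primes, degree 4q, quadratic factors

(a) for every even m and almost all primes q, B_{mq} has an irreducible factor of degree ≥ m (q - 1);
(b) B_{4q} is irreducible for almost all primes q with q = 2 mod 3 or q = 7 mod 9;
(c) for even n, B_n has a factor of degree 2 only if n = 2 mod 12, and only for O(N^(5/6)) of the n ≤ N.
-/

namespace Pool.Agent.L7h58.BP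

open Finset Polynomial

/-- The prime 2, n = 2^e r q, r odd, q prime not dividing r.  Sp 2 n = (X^(rq) + (X+1)^(rq))^(2^e), of degree
2^e (rq - 1).  Let F divide it, deg F < o = ord_q(2).  An irreducible factor of F of degree d has a root x in a
field with 2^d elements, θ = (x+1)/x satisfies θ^(rq) = 1, and q does not divide 2^d - 1 (d < o), so θ^r = 1: x is
a root of X^r + (X+1)^r.  As X^(rq) + (X+1)^(rq) is squarefree (rq odd: the roots are 1/(ζ+1), ζ^(rq) = 1, ζ ≠ 1,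
all different), F divides (X^r + (X+1)^r)^(2^e), so deg F ≤ 2^e (r-1).  By CRI: if F.natDegree = f.natDegree
this is the claim; otherwise G.natDegree = n - f.natDegree, F.natDegree = f.natDegree - 2^e ≤ 2^e (r-1).
(helper29's proof of TWO is the case r = 1.) -/
def S_TWG : Prop := ∀ (e r q : ℕ), 1 ≤ e → r % 2 = 1 → q.Prime → 2 < q → ¬ q ∣ r → ∀ f g : ℚ[X],
  Polynomial.bernoulli (2 ^ e * (r * q)) = f * g → f.natDegree < orderOf (2 : ZMod q) →
  f.natDegree ≤ 2 ^ e * r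

/-- `Sp 3 (4q) = ∑_{a mod 3} (X+a)^(4q)` has no divisor of degree 2 or 4 if q is odd and not divisible by 5.
Such a divisor has a root x in K = GaloisField 3 4 (81 elements; the irreducible factors have degrees 1, 2,
4, or 3 and 1).  4q mod 80 is 4 * 3^j or 44 * 3^j (j = 0..3), so with y = x^(3^j) the value at x is
S = ∑_a (y+a)^4 or S = ∑_a (y+a)^44.  First case: S = 2 (y^4 + (y+1)^4 + (y-1)^4 = 2 in characteristic 3).
Second case: S = ∑_a ε_a (y+a)^4, ε_a = (y+a)^40 ∈ {1, -1} if y + a ≠ 0.  If y ∈ F_3: S = 2.  Otherwise all ε_a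
are signs; if they are equal, S = ±2; if exactly one, ε_b, differs from the common value ε of the other two,
S = ε (2 - 2 (y+b)^4), which is 0 only if u = y + b has u^4 = 1; then ε_b = 1, ε = -1, but u ∈ F_9 and the
other two, u ± 1 ∈ F_9, satisfy (u ± 1)^8 = 1, so their ε is 1: contradiction. -/
def S_NR4 : Prop := ∀ q : ℕ, q % 2 = 1 → q % 5 ≠ 0 → ∀ F : (ZMod 3)[X], F ∣ Sp 3 (4 * q) →
  F.natDegree ≠ 2 ∧ F.natDegree ≠ 4

/-- From CRI and NR4.  n = 4q; Sp 3 n has the coefficients -choose n k at X^(n-k) for even k ≥ 2 and 0 for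
k = 0 and odd k; it is not 0 (constant coefficient -1).  q = 2 mod 3: choose n 2 = 2q(4q-1) ≠ 0 mod 3, degree n-2.
q = 7 mod 9: n = 1 mod 9, choose n 2 = choose n 4 = 0 mod 3, degree ≤ n - 6.  Let f.natDegree = 4.
F.natDegree = 4 is excluded by NR4; so G.natDegree = n - 4; in the second case this is impossible, in the first
F.natDegree = 2, excluded by NR4. -/
def S_TH4 : Prop := ∀ q : ℕ, q.Prime → 5 < q → (q % 3 = 2 ∨ q % 9 = 7) → ∀ f g : ℚ[X],
  Polynomial.bernoulli (4 * q) = f * g → f.natDegree ≠ 4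

/-- Quadratic factors, n = 2q with q odd (not necessarily prime).  CRI at 2: no factor of degree 1 (Sp 2 n has no
root in ZMod 2 and degree ≤ n - 2 < n - 1).  So f is irreducible.  As in POL (RED2, NRT): the monic f = X^2 + b X
+ c; let a be the common denominator of b, c and F = a f primitive; F ∣ P, a ∣ primorial (n+1), squarefree; 3 ∣ a
(otherwise F mod 3 has degree 2, against NRT).  The same for f(1-X); if f(1-X) were different from f, the product
F F' (both irreducible) would divide P and 9 ∣ a a' ∣ primorial, contradiction; so b = -1.  Then as in POL a ∣ 6, and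
Y = 3 - 12 c is an integer prime to 3.  n = 2 mod 3: by CRI at 3 and NRT G.natDegree = n - 2 ≤ natDegree (Sp 3 n), so
choose n 2 ≠ 0 mod 3. (n = 2 is allowed: f = B_2, Y = 1.) -/
def S_POG : Prop := ∀ (q : ℕ) (f : ℚ[X]), q % 2 = 1 → f.natDegree = 2 →
  f ∣ Polynomial.bernoulli (2 * q) → (2 * q) % 3 = 2 ∧
  ∃ Y : ℤ, ¬ (3 : ℤ) ∣ Y ∧ (X ^ 2 - X + C (((3 - Y : ℤ) : ℚ) / 12)) ∣ Polynomial.bernoulli (2 * q)

/-- 4 ∣ n: no factor of degree 2.  n = 2^e r, e ≥ 2.  CRI at 2: G.natDegree = n - 2 is impossible (Sp 2 n has degree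
n - 2^e), so f is 2-integral up to a factor and its reduction F has degree 2, no roots in ZMod 2, so F = X^2+X+1.
Let f1 be the primitive integer polynomial proportional to f, odd leading coefficient, P = f1 G1 in ℤ[X] (P from
RED2).  Modulo 4: 2 B_n(x) = x^n + (x+1)^n for 4 ∣ n: indeed
x^n + (x+1)^n = (B_{n+1}(x+2) - B_{n+1}(x))/(n+1) = ∑_{k≥1} choose n (k-1) (2^k/k) B_{n+1-k}(x), the term k = 1 is
2 B_n, the others are (2^(k-1)/k) choose n (k-1) (2 B_{n+1-k}(x)) = 0 mod 4 (2 B_j(x) is 2-integral; k = 2: n/1;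
k = 3: (4/3) choose n 2; k = 4: 2 choose n 3, 4 ∣ choose n 3; k ≥ 5: 4 ∣ 2^(k-1)/k).  Let x be the class of X in
A = (ℤ/4)[X]/(f1).  Then x^2 + x + 1 ∈ 2A, so x and x + 1 are units, θ = (x+1)/x satisfies θ^3 = 1 + 2v, and 3 ∣ n
(because x^n + (x+1)^n = 0 mod 2 and θ has order 3 in A/2 = F_4), θ^n = (1+2v)^(n/3) = 1 as 4 ∣ n/3.  So
0 = (D/2)^(-1) P(x) = x^n (1 + θ^n) = 2 x^n, which is not 0 in A (A is free over ℤ/4).  Contradiction. -/
def S_QF4 : Prop := ∀ (n : ℕ) (f : ℚ[X]), 4 ∣ n → 1 ≤ n → f.natDegree = 2 →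
  ¬ f ∣ Polynomial.bernoulli n

/-- (a) and (b), counting form -/
def S_MULA : Prop := ∀ m : ℕ, Even m → 2 ≤ m → ∀ ε : ℝ, 0 < ε → ∀ᶠ x : ℕ in Filter.atTop,
    (cnt x (fun q => ¬ ∃ h : ℚ[X], Irreducible h ∧
      h ∣ Polynomial.bernoulli (m * q) ∧ m * (q - 1) ≤ h.natDegree) : ℝ) ≤ ε * x / Real.log x

def S_MULB : Prop := ∀ ε : ℝ, 0 < ε → ∀ᶠ x : ℕ in Filter.atTop,
    (cnt x (fun q => (q % 3 = 2 ∨ q % 9 = 7) ∧ ¬ Irreducible (Polynomial.bernoulli (4 * q))) : ℝ) ≤
      ε * x / Real.log x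

/-- (c): from POG, CEN, BAD, QF4 -/
def S_QUA : Prop := (∀ (n : ℕ) (f : ℚ[X]), Even n → 1 ≤ n → f.natDegree = 2 →
    f ∣ Polynomial.bernoulli n → n % 12 = 2) ∧
  ∃ C : ℝ, 0 < C ∧ ∀ N : ℕ, 1 ≤ N →
    (Nat.card {n : ℕ // 1 ≤ n ∧ n ≤ N ∧ Even n ∧ ∃ f : ℚ[X], f.natDegree = 2 ∧
      f ∣ Polynomial.bernoulli n} : ℝ) ≤ C * (N : ℝ) ^ (5 / 6 : ℝ)

end Pool.Agent.L7h58.BP
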