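import Pool.Agent.L7h58.BP.FinB
import Pool.Agent.L7h58.BP.Stm4

set_option autoImplicit false

/-! Fixed multiples of primes, degree 4q, quadratic factors. -/

namespace Pool.Agent.L7h58.BP

open Finset Polynomial Filter

theorem good_count_gen (hV : S_LSV) {m : ℕ} (hm : 1 ≤ m) {ε : ℝ} (hε : 0 < ε) :
    ∀ᶠ x : ℕ in atTop, (cnt x (fun q => ¬ Good (m * x) (m * q)) : ℝ) ≤ ε * x / Real.log x := by
  obtain ⟨C, hC, hV⟩ := hV
  filter_upwards [eventually_ge_atTop 3, log_tendsto.eventually_ge_atTop (C * m / ε),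
    log_tendsto.eventually_gt_atTop 0] with x hx hlog hlog0
  have hp : 0 < m := hm
  have hxN : x ≤ m * x := Nat.le_mul_of_pos_left x hp
  have h1 := hV (m * x) (hx.trans hxN)
  have hfin : Finite {n : ℕ // 1 ≤ n ∧ n ≤ m * x ∧ ¬ Good (m * x) n} := by
    have h : {n : ℕ | 1 ≤ n ∧ n ≤ m * x ∧ ¬ Good (m * x) n}.Finite :=
      (Set.finite_Iic (m * x)).subset (fun q hq => hq.2.1)
    exact h.to_subtype
  have h2 : cnt x (fun q => ¬ Good (m * x) (m * q)) ≤
      Nat.card {n : ℕ // 1 ≤ n ∧ n ≤ m * x ∧ ¬ Good (m * x) n} := by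
    unfold cnt
    apply Nat.card_le_card_of_injective
      (fun q : {q : ℕ // q.Prime ∧ q ≤ x ∧ ¬ Good (m * x) (m * q)} =>
        (⟨m * q.1, Nat.mul_pos hp q.2.1.pos, Nat.mul_le_mul_left _ q.2.2.1, q.2.2.2⟩ :
          {n : ℕ // 1 ≤ n ∧ n ≤ m * x ∧ ¬ Good (m * x) n}))
    intro a b hab
    have h3 : m * a.1 = m * b.1 := congrArg Subtype.val hab
    exact Subtype.ext (Nat.eq_of_mul_eq_mul_left hp h3)
  have h2' : (cnt x (fun q => ¬ Good (m * x) (m * q)) : ℝ) ≤
      (Nat.card {n : ℕ // 1 ≤ n ∧ n ≤ m * x ∧ ¬ Good (m * x) n} : ℝ) := by exact_mod_cast h2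
  refine h2'.trans (h1.trans ?_)
  have hx0 : (0 : ℝ) < x := by exact_mod_cast (by omega : 0 < x)
  have hm0 : (0 : ℝ) < m := by exact_mod_cast hp
  have hlogN : Real.log (x : ℝ) ≤ Real.log ((m * x : ℕ) : ℝ) :=
    Real.log_le_log hx0 (by exact_mod_cast hxN)
  have h4 : C * ((m * x : ℕ) : ℝ) / Real.log ((m * x : ℕ) : ℝ) ^ 2 ≤
      C * ((m * x : ℕ) : ℝ) / Real.log (x : ℝ) ^ 2 := by
    apply div_le_div_of_nonneg_left (by positivity) (by positivity)
    exact pow_le_pow_left₀ hlog0.le hlogN 2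
  refine h4.trans ?_
  rw [div_le_div_iff₀ (by positivity) hlog0]
  push_cast
  have h5 : C * m ≤ ε * Real.log x := by
    rw [div_le_iff₀ hε] at hlog
    linarith
  have h6 : 0 ≤ x * Real.log x := by positivity
  nlinarith [mul_le_mul_of_nonneg_right h5 h6]

theorem size_bound_gen {m : ℕ} (hm : 1 ≤ m) : ∀ᶠ x : ℕ in atTop,
    Real.sqrt ((m * x : ℕ) : ℝ) * Real.log ((m * x : ℕ) : ℝ) ^ 6 ≤
      Real.sqrt x * Real.log x ^ 7 := by
  filter_upwards [eventually_ge_atTop 1, log_tendsto.eventually_ge_atTop (Real.log m),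
    log_tendsto.eventually_ge_atTop (64 * m : ℝ)] with x hx hlog1 hlog2
  have hx0 : (0 : ℝ) < x := by exact_mod_cast (by omega : 0 < x)
  have hp1 : (1 : ℝ) ≤ m := by exact_mod_cast hm
  have hm0 : (0 : ℝ) < m := by linarith
  have hlx : 0 ≤ Real.log (x : ℝ) := by
    have : (0 : ℝ) ≤ 64 * m := by positivity
    linarith
  push_cast
  rw [Real.sqrt_mul (by positivity), Real.log_mul (by positivity) (by positivity)]
  have h1 : Real.sqrt (m : ℝ) ≤ m := by
    rw [Real.sqrt_le_left (by positivity)]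
    nlinarith
  have h2 : Real.log m + Real.log x ≤ 2 * Real.log x := by linarith
  have h20 : 0 ≤ Real.log m + Real.log x := by
    have : 0 ≤ Real.log (m : ℝ) := Real.log_nonneg hp1
    positivity
  have h3 : (Real.log m + Real.log x) ^ 6 ≤ (2 * Real.log x) ^ 6 :=
    pow_le_pow_left₀ h20 h2 6
  have h4 : (2 * Real.log (x : ℝ)) ^ 6 = 64 * Real.log x ^ 6 := by ring
  rw [h4] at h3
  have hs : 0 ≤ Real.sqrt (x : ℝ) := Real.sqrt_nonneg _
  calc Real.sqrt (m : ℝ) * Real.sqrt x * (Real.log m + Real.log x) ^ 6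
      ≤ m * Real.sqrt x * (64 * Real.log x ^ 6) := by
        apply mul_le_mul (mul_le_mul_of_nonneg_right h1 hs) h3 (by positivity) (by positivity)
    _ = Real.sqrt x * Real.log x ^ 6 * (64 * m) := by ring
    _ ≤ Real.sqrt x * Real.log x ^ 6 * Real.log x := by
        apply mul_le_mul_of_nonneg_left hlog2; positivity
    _ = _ := by ring

theorem const_count (K : ℕ) {ε : ℝ} (hε : 0 < ε) : ∀ᶠ x : ℕ in atTop,
    (K : ℝ) ≤ ε * x / Real.log x := by
  have h := small_count (show 0 < ε / ((K : ℝ) + 1) by positivity)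
  filter_upwards [h] with x hx
  have hK : (0 : ℝ) ≤ K := by positivity
  have h1 : ε / ((K : ℝ) + 1) * x / Real.log x = (ε * x / Real.log x) / (K + 1) := by
    field_simp
  rw [h1, le_div_iff₀ (by positivity)] at hx
  linarith

/-- the exceptional primes for the multiplier `m` -/
theorem exc_count_gen (hV : S_LSV) (hO : S_ORD) {m : ℕ} (hm : 1 ≤ m) {ε : ℝ} (hε : 0 < ε) :
    ∀ᶠ x : ℕ in atTop,
    (cnt x (fun q => ¬ (5 + m < q ∧ Good (m * x) (m * q) ∧
      Real.sqrt ((m * x : ℕ) : ℝ) * Real.log ((m * x : ℕ) : ℝ) ^ 6 <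
        (orderOf (2 : ZMod q) : ℝ))) : ℝ) ≤ ε * x / Real.log x := by
  have hε3 : 0 < ε / 3 := by positivity
  filter_upwards [good_count_gen hV hm hε3, hO (ε / 3) hε3, const_count (5 + m) hε3,
    size_bound_gen hm, log_tendsto.eventually_gt_atTop 0] with x h1 h2 h3 h4 h5
  have h6 : cnt x (fun q => ¬ (5 + m < q ∧ Good (m * x) (m * q) ∧
      Real.sqrt ((m * x : ℕ) : ℝ) * Real.log ((m * x : ℕ) : ℝ) ^ 6 <
        (orderOf (2 : ZMod q) : ℝ))) ≤ cnt x (fun q => q ≤ 5 + m) +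
      (cnt x (fun q => ¬ Good (m * x) (m * q)) +
        cnt x (fun q => 2 < q ∧ (orderOf (2 : ZMod q) : ℝ) ≤ Real.sqrt x * (Real.log x) ^ 7)) := by
    refine (cnt_le_add (Q := fun q => q ≤ 5 + m) (R := fun q => (¬ Good (m * x) (m * q)) ∨
      (2 < q ∧ (orderOf (2 : ZMod q) : ℝ) ≤ Real.sqrt x * (Real.log x) ^ 7)) ?_).trans
      (Nat.add_le_add_left (cnt_or_le _ _ _) _)
    intro q _ _ h
    by_cases h31 : q ≤ 5 + m
    · exact Or.inl h31
    · right
      by_cases hgd : Good (m * x) (m * q)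
      · right
        refine ⟨by omega, ?_⟩
        by_contra hcon
        apply h
        refine ⟨by omega, hgd, ?_⟩
        push Not at hcon
        exact lt_of_le_of_lt h4 hcon
      · exact Or.inl hgd
  have h7 : (cnt x (fun q => q ≤ 5 + m) : ℝ) ≤ ((5 + m : ℕ) : ℝ) := by
    exact_mod_cast cnt_le_nat x (5 + m)
  have h6' : (cnt x (fun q => ¬ (5 + m < q ∧ Good (m * x) (m * q) ∧
      Real.sqrt ((m * x : ℕ) : ℝ) * Real.log ((m * x : ℕ) : ℝ) ^ 6 <
        (orderOf (2 : ZMod q) : ℝ))) : ℝ) ≤ (cnt x (fun q => q ≤ 5 + m) : ℝ) +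
      ((cnt x (fun q => ¬ Good (m * x) (m * q)) : ℝ) +
        (cnt x (fun q => 2 < q ∧ (orderOf (2 : ZMod q) : ℝ) ≤ Real.sqrt x * (Real.log x) ^ 7) : ℝ)) := by
    exact_mod_cast h6
  have h8 : ε / 3 * x / Real.log x + (ε / 3 * x / Real.log x + ε / 3 * x / Real.log x) =
      ε * x / Real.log x := by
    field_simp
    ring
  exact h6'.trans ((add_le_add (h7.trans h3) (add_le_add h1 h2)).trans (le_of_eq h8))

theorem s_MULA (hL : S_LOC) (hT : S_TWG) (hF : S_FAC) (hV : S_LSV) (hO : S_ORD) : S_MULA := by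
  intro m hme hm2 ε hε
  filter_upwards [exc_count_gen hV hO (m := m) (by omega) hε] with x hx
  refine le_trans ?_ hx
  have : cnt x (fun q => ¬ ∃ h : ℚ[X], Irreducible h ∧
      h ∣ Polynomial.bernoulli (m * q) ∧ m * (q - 1) ≤ h.natDegree) ≤
    cnt x (fun q => ¬ (5 + m < q ∧ Good (m * x) (m * q) ∧
      Real.sqrt ((m * x : ℕ) : ℝ) * Real.log ((m * x : ℕ) : ℝ) ^ 6 <
        (orderOf (2 : ZMod q) : ℝ))) := by
    apply cnt_mono
    rintro q hq _ hn ⟨hq5, ⟨l, A, t, hl, hl2, hnn, htA, hAl, hb⟩, ho⟩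
    apply hn
    obtain ⟨e, r, hr, hmr⟩ := Nat.exists_eq_two_pow_mul_odd (show m ≠ 0 by omega)
    have he : 1 ≤ e := by
      rcases Nat.eq_zero_or_pos e with h0 | h0
      · exfalso
        rw [h0, pow_zero, one_mul] at hmr
        rw [hmr] at hme
        exact (Nat.not_even_iff_odd.2 hr) hme
      · exact h0
    have hrm : r ≤ m := by rw [hmr]; exact Nat.le_mul_of_pos_left r (by positivity)
    have hr0 : 0 < r := hr.pos
    have hqr : ¬ q ∣ r := by
      intro hd
      have := Nat.le_of_dvd hr0 hd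
      omega
    have hkey : ∀ f g : ℚ[X], Polynomial.bernoulli (m * q) = f * g →
        min f.natDegree g.natDegree ≤ m := by
      intro f g hfg
      have h1 := hL _ l A t (hme.mul_right q) hl hl2 hnn htA hAl f g hfg
      have h2 : min f.natDegree g.natDegree < orderOf (2 : ZMod q) := by
        have h3 : ((min f.natDegree g.natDegree : ℕ) : ℝ) ≤ (t * l : ℝ) := by exact_mod_cast h1
        have h4 : ((min f.natDegree g.natDegree : ℕ) : ℝ) < (orderOf (2 : ZMod q) : ℝ) :=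
          lt_of_le_of_lt (h3.trans hb) ho
        exact_mod_cast h4
      have hmq : m * q = 2 ^ e * (r * q) := by
        conv_lhs => rw [hmr]
        ring
      rw [hmq] at hfg
      rcases le_total f.natDegree g.natDegree with h | h
      · rw [min_eq_left h] at h2 ⊢
        calc f.natDegree ≤ 2 ^ e * r := hT e r q he (Nat.odd_iff.1 hr) hq (by omega) hqr f g hfg h2
          _ = m := hmr.symm
      · rw [min_eq_right h] at h2 ⊢
        calc g.natDegree ≤ 2 ^ e * r := hT e r q he (Nat.odd_iff.1 hr) hq (by omega) hqr g f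
              (by rw [hfg, mul_comm]) h2
          _ = m := hmr.symm
    obtain ⟨h, h1, h2, h3⟩ := hF (Polynomial.bernoulli (m * q)) m (bern_ne_zero _) (by
      rw [bern_natDegree, mul_comm 3]
      exact Nat.mul_lt_mul_of_pos_left (by omega) (by omega)) hkey
    refine ⟨h, h1, h2, ?_⟩
    rw [bern_natDegree] at h3
    rw [Nat.mul_sub, mul_one]
    exact h3
  exact_mod_cast this

theorem s_MULB (hL : S_LOC) (hT : S_TWO) (hH : S_TH4) (hV : S_LSV) (hO : S_ORD) : S_MULB := by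
  intro ε hε
  filter_upwards [exc_count_gen hV hO (m := 4) (by norm_num) hε] with x hx
  refine le_trans ?_ hx
  have : cnt x (fun q => (q % 3 = 2 ∨ q % 9 = 7) ∧
      ¬ Irreducible (Polynomial.bernoulli (4 * q))) ≤
    cnt x (fun q => ¬ (5 + 4 < q ∧ Good (4 * x) (4 * q) ∧
      Real.sqrt ((4 * x : ℕ) : ℝ) * Real.log ((4 * x : ℕ) : ℝ) ^ 6 <
        (orderOf (2 : ZMod q) : ℝ))) := by
    apply cnt_mono
    rintro q hq _ ⟨hm, hn⟩ ⟨hq5, hgd, ho⟩
    apply hn
    have hgd' : Good (4 * x) (2 ^ 2 * q) := by norm_num; exact hgd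
    have key : ∀ f g : ℚ[X], Polynomial.bernoulli (4 * q) = f * g →
        min f.natDegree g.natDegree = 0 := by
      intro f g hfg
      rcases min_cases hL hT (e := 2) (by norm_num) hq (by omega) hgd' ho f g
        (by norm_num; exact hfg) with h | h
      · exact h
      · exfalso
        norm_num at h
        rcases le_total f.natDegree g.natDegree with h' | h'
        · rw [min_eq_left h'] at h
          exact hH q hq (by omega) hm f g hfg h
        · rw [min_eq_right h'] at h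
          exact hH q hq (by omega) hm g f (by rw [hfg, mul_comm]) h
    have hne := bern_ne_zero (4 * q)
    refine ⟨?_, ?_⟩
    · intro hu
      have := natDegree_eq_zero_of_isUnit hu
      rw [bern_natDegree] at this
      omega
    · intro f g hfg
      have hf0 : f ≠ 0 := by rintro rfl; rw [zero_mul] at hfg; exact hne hfg
      have hg0 : g ≠ 0 := by rintro rfl; rw [mul_zero] at hfg; exact hne hfg
      have h := key f g hfg
      rcases le_total f.natDegree g.natDegree with h' | h'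
      · left
        rw [min_eq_left h'] at h
        rw [Polynomial.isUnit_iff_degree_eq_zero, degree_eq_natDegree hf0, h]
        rfl
      · right
        rw [min_eq_right h'] at h
        rw [Polynomial.isUnit_iff_degree_eq_zero, degree_eq_natDegree hg0, h]
        rfl
  exact_mod_cast this

theorem s_QUA (hP : S_POG) (hQ : S_QF4) (hC : S_CEN) (hB : S_BAD) : S_QUA := by
  have key : ∀ (n : ℕ) (f : ℚ[X]), Even n → 1 ≤ n → f.natDegree = 2 →
      f ∣ Polynomial.bernoulli n → n % 12 = 2 ∧ ∃ Y : ℤ, ¬ (3 : ℤ) ∣ Y ∧ Rel n Y := by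
    intro n f hn h1 h2 hf
    have h4 : ¬ 4 ∣ n := fun h => hQ n f h h1 h2 hf
    obtain ⟨q, hq⟩ := hn
    have hq2 : n = 2 * q := by omega
    subst hq2
    have hqo : q % 2 = 1 := by
      by_contra hc
      apply h4
      omega
    obtain ⟨h3, Y, hY, hd⟩ := hP q f hqo h2 hf
    refine ⟨by omega, Y, hY, hC (2 * q) Y (even_two_mul q) (by omega) ?_ hd⟩
    rintro rfl
    exact hY (dvd_zero 3)
  refine ⟨fun n f hn h1 h2 hf => (key n f hn h1 h2 hf).1, ?_⟩
  obtain ⟨C, hC0, hB⟩ := hB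
  refine ⟨C, hC0, fun N hN => le_trans ?_ (hB N hN)⟩
  have hfin : Finite {n : ℕ // n ≤ N ∧ n % 3 = 2 ∧ ∃ Y : ℤ, ¬ (3 : ℤ) ∣ Y ∧ Rel n Y} := by
    have h : {n : ℕ | n ≤ N ∧ n % 3 = 2 ∧ ∃ Y : ℤ, ¬ (3 : ℤ) ∣ Y ∧ Rel n Y}.Finite :=
      (Set.finite_Iic N).subset (fun q hq => hq.1)
    exact h.to_subtype
  have h := Nat.card_le_card_of_injective
    (fun n : {n : ℕ // 1 ≤ n ∧ n ≤ N ∧ Even n ∧ ∃ f : ℚ[X], f.natDegree = 2 ∧
      f ∣ Polynomial.bernoulli n} =>
      (⟨n.1, n.2.2.1, by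
        obtain ⟨h1, h2, h3, f, h4, h5⟩ := n.2
        have := (key n.1 f h3 h1 h4 h5).1
        omega, by
        obtain ⟨h1, h2, h3, f, h4, h5⟩ := n.2
        exact (key n.1 f h3 h1 h4 h5).2⟩ :
        {n : ℕ // n ≤ N ∧ n % 3 = 2 ∧ ∃ Y : ℤ, ¬ (3 : ℤ) ∣ Y ∧ Rel n Y})) (by
      intro a b hab
      have h3 : a.1 = b.1 := by
        simpa using hab
      exact Subtype.ext h3)
  exact_mod_cast h

end Pool.Agent.L7h58.BP
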