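import Pool.Agent.L7h58.BP.Lrg

set_option autoImplicit false

/-! A power saving exceptional set: all but `C N^(1-δ) (log N)^3` even `n ≤ N` have an irreducible factor of
degree at least `n - n^(1/2+δ)`. -/

namespace Pool.Agent.L7h58.BP

open Finset Polynomial Filter

/-- as `Good`, with the bound `D` -/
def GoodD (D : ℝ) (n : ℕ) : Prop := ∃ l A t : ℕ, l.Prime ∧ 2 < l ∧ n = A * (l - 1) + t ∧ t < A ∧
  A ≤ l ∧ (t * l : ℝ) ≤ D

theorem goodD_of_W {N L U m n : ℕ} (hN : 9 ≤ N)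
    (hL1 : Real.sqrt N + 2 ≤ L) (hL2 : (L : ℝ) ≤ Real.sqrt N + 3)
    (hU : (2 * (U : ℝ) + 1) * (32 * Real.sqrt N) ≤ n)
    (hm : (m + 1).Prime) (hm1 : L ≤ m) (hm2 : m + 1 ≤ 16 * L)
    (hn2 : n ≤ N) (hW : W U m n ≠ 0) : GoodD (64 * U * Real.sqrt N) n := by
  have hsq : Real.sqrt N * Real.sqrt N = N := Real.mul_self_sqrt (by positivity)
  have hs3 : 3 ≤ Real.sqrt N := by
    rw [show (3 : ℝ) = Real.sqrt 9 by
      rw [show (9 : ℝ) = 3 ^ 2 by norm_num, Real.sqrt_sq (by norm_num)]]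
    apply Real.sqrt_le_sqrt
    exact_mod_cast hN
  have hs0 : 0 < Real.sqrt (N : ℝ) := by linarith
  have hn2r : (n : ℝ) ≤ N := by exact_mod_cast hn2
  have hU2 : (2 * (U : ℝ) + 1) * 32 ≤ Real.sqrt N := by
    have h1 : ((2 * (U : ℝ) + 1) * 32) * Real.sqrt N ≤ Real.sqrt N * Real.sqrt N := by
      rw [hsq]; linarith
    exact le_of_mul_le_mul_right h1 hs0
  have hU0 : (0 : ℝ) ≤ U := Nat.cast_nonneg U
  have hUL : (2 : ℝ) * U < L := by linarith
  have hm1r : (L : ℝ) ≤ m := by exact_mod_cast hm1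
  have hm2r : (m : ℝ) + 1 ≤ 16 * L := by exact_mod_cast hm2
  have hne : (((range U) ×ˢ (range U)).filter (fun s => (s.1 + s.2) % m = n % m)).Nonempty := by
    rw [← card_pos]
    unfold W at hW
    omega
  obtain ⟨⟨s, s'⟩, hss⟩ := hne
  rw [mem_filter, mem_product, mem_range, mem_range] at hss
  obtain ⟨⟨h1, h2⟩, h3⟩ := hss
  simp only at h1 h2 h3
  have hm0 : 0 < m := by
    have : (0 : ℝ) < m := by linarith
    exact_mod_cast this
  have hULn : 2 * U < L := by exact_mod_cast hUL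
  have hlt : s + s' < m := by omega
  rw [Nat.mod_eq_of_lt hlt] at h3
  have hdiv := Nat.div_add_mod n m
  have hm32 : (m : ℝ) ≤ 32 * Real.sqrt N := by linarith
  have hA2 : 2 * U ≤ n / m := by
    rw [Nat.le_div_iff_mul_le hm0]
    have : ((2 * U : ℕ) : ℝ) * m ≤ n := by
      push_cast
      refine le_trans ?_ hU
      have h4 : (2 * (U : ℝ)) * m ≤ (2 * (U : ℝ)) * (32 * Real.sqrt N) :=
        mul_le_mul_of_nonneg_left hm32 (by positivity)
      nlinarith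
    exact_mod_cast this
  have hNm : N ≤ m * m := by
    have : (N : ℝ) ≤ m * m := by
      rw [← hsq]
      have : Real.sqrt N ≤ m := by linarith
      exact mul_self_le_mul_self (Real.sqrt_nonneg _) this
    exact_mod_cast this
  have hAm : n / m ≤ m := Nat.div_le_of_le_mul (hn2.trans hNm)
  refine ⟨m + 1, n / m, s + s', hm, ?_, ?_, ?_, ?_, ?_⟩
  · have : (3 : ℝ) < L := by linarith
    have : 3 < L := by exact_mod_cast this
    omega
  · rw [Nat.add_sub_cancel, mul_comm, h3]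
    exact hdiv.symm
  · omega
  · omega
  · have e1 : ((s + s' : ℕ) : ℝ) ≤ 2 * U := by
      have : s + s' ≤ 2 * U := by omega
      exact_mod_cast this
    have e2 : ((m + 1 : ℕ) : ℝ) ≤ 32 * Real.sqrt N := by
      push_cast
      linarith
    calc ((s + s' : ℕ) : ℝ) * ((m + 1 : ℕ) : ℝ) ≤ (2 * U) * (32 * Real.sqrt N) := by gcongr
      _ = 64 * U * Real.sqrt N := by ring

theorem large_half {K c : ℝ} (hK : 0 < K) (hc : 0 < c)
    (hV : ∀ (N L U : ℕ) (M : Finset ℕ), 2 ≤ U → 2 ≤ L →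
      (∀ m ∈ M, L ≤ m ∧ m ≤ 16 * L) →
      ∑ n ∈ range (N + 1), (∑ m ∈ M, ((W U m n : ℝ) - (U : ℝ) ^ 2 / m)) ^ 2 ≤
        K * (N + (L : ℝ) ^ 2) * (U : ℝ) ^ 3 * Real.log L)
    {N L U : ℕ} (hN : 9 ≤ N)
    (hL1 : Real.sqrt N + 2 ≤ L) (hL2 : (L : ℝ) ≤ Real.sqrt N + 3)
    (hU2' : 2 ≤ U) (hUN : (2 * (U : ℝ) + 1) * (32 * Real.sqrt N) ≤ (N : ℝ) / 2)
    (hP : c * L / Real.log L ≤ (((Ioc L (16 * L)).filter Nat.Prime).card : ℝ))
    (B : Finset ℕ) (hB : ∀ n ∈ B, (N : ℝ) / 2 ≤ n ∧ n ≤ N ∧ ¬ GoodD (64 * U * Real.sqrt N) n) :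
    (B.card : ℝ) * U ≤ 1280 * K / c ^ 2 * N * Real.log N ^ 3 := by
  classical
  have hsq : Real.sqrt N * Real.sqrt N = N := Real.mul_self_sqrt (by positivity)
  have hs3 : 3 ≤ Real.sqrt N := by
    rw [show (3 : ℝ) = Real.sqrt 9 by
      rw [show (9 : ℝ) = 3 ^ 2 by norm_num, Real.sqrt_sq (by norm_num)]]
    apply Real.sqrt_le_sqrt
    exact_mod_cast hN
  have hU0 : (0 : ℝ) < U := by exact_mod_cast (by omega : 0 < U)
  have hL5 : (5 : ℝ) ≤ L := by linarith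
  have hL2' : 2 ≤ L := by
    have : (2 : ℝ) ≤ L := by linarith
    exact_mod_cast this
  have hlogL : 0 < Real.log L := Real.log_pos (by linarith)
  have hLN : (L : ℝ) ≤ N := by nlinarith
  have hlogLN : Real.log L ≤ Real.log N := Real.log_le_log (by linarith) hLN
  set M : Finset ℕ := ((Ioc L (16 * L)).filter Nat.Prime).image (fun l => l - 1) with hMdef
  have hM : ∀ m ∈ M, (m + 1).Prime ∧ L ≤ m ∧ m + 1 ≤ 16 * L := by
    intro m hm
    rw [hMdef, mem_image] at hm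
    obtain ⟨l, hl, rfl⟩ := hm
    rw [mem_filter, mem_Ioc] at hl
    obtain ⟨⟨h1, h2⟩, h3⟩ := hl
    have h4 : l - 1 + 1 = l := by omega
    rw [h4]
    exact ⟨h3, by omega, h2⟩
  have hcardM : M.card = ((Ioc L (16 * L)).filter Nat.Prime).card := by
    rw [hMdef]
    apply card_image_of_injOn
    intro a ha b hb hab
    rw [mem_coe, mem_filter, mem_Ioc] at ha hb
    have : a - 1 = b - 1 := hab
    omega
  set E : ℝ := ∑ m ∈ M, (U : ℝ) ^ 2 / m with hE
  have hElow : c / 16 * (U : ℝ) ^ 2 / Real.log L ≤ E := by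
    have h1 : ∑ m ∈ M, (U : ℝ) ^ 2 / (16 * L) ≤ E := by
      apply sum_le_sum
      intro m hm
      obtain ⟨-, h2, h3⟩ := hM m hm
      have hm0 : (0 : ℝ) < m := by
        have : (L : ℝ) ≤ m := by exact_mod_cast h2
        linarith
      apply div_le_div_of_nonneg_left (by positivity) hm0
      have : m ≤ 16 * L := by omega
      exact_mod_cast this
    rw [sum_const, nsmul_eq_mul, hcardM] at h1
    refine le_trans ?_ h1
    calc c / 16 * (U : ℝ) ^ 2 / Real.log L = c * L / Real.log L * ((U : ℝ) ^ 2 / (16 * L)) := by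
          field_simp
      _ ≤ _ := by gcongr
  have hE0 : 0 < E := lt_of_lt_of_le (by positivity) hElow
  have hlarge : (B.card : ℝ) * E ^ 2 ≤ K * (N + (L : ℝ) ^ 2) * (U : ℝ) ^ 3 * Real.log L := by
    refine le_trans ?_ (hV N L U M hU2' hL2' (fun m hm => ⟨(hM m hm).2.1, by
      have := (hM m hm).2.2
      omega⟩))
    have h1 : (B.card : ℝ) * E ^ 2 = ∑ n ∈ B, (∑ m ∈ M, ((W U m n : ℝ) - (U : ℝ) ^ 2 / m)) ^ 2 := by
      rw [← nsmul_eq_mul, ← sum_const]
      refine sum_congr rfl fun n hn => ?_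
      obtain ⟨h5, h3, h4⟩ := hB n hn
      have h6 : ∑ m ∈ M, ((W U m n : ℝ) - (U : ℝ) ^ 2 / m) = ∑ m ∈ M, (-((U : ℝ) ^ 2 / m)) := by
        refine sum_congr rfl fun m hm => ?_
        have h7 : W U m n = 0 := by
          by_contra h8
          apply h4
          exact goodD_of_W hN hL1 hL2 (hUN.trans h5) (hM m hm).1 (hM m hm).2.1 (hM m hm).2.2
            h3 h8
        rw [h7]
        simp
      rw [h6, sum_neg_distrib, neg_sq]
    rw [h1]
    apply sum_le_sum_of_subset_of_nonneg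
    · intro n hn
      rw [mem_range]
      have := (hB n hn).2.1
      omega
    · intro n _ _
      positivity
  have h1 : (B.card : ℝ) * (c / 16 * (U : ℝ) ^ 2 / Real.log L) ^ 2 ≤
      K * (N + (L : ℝ) ^ 2) * (U : ℝ) ^ 3 * Real.log L := by
    refine le_trans ?_ hlarge
    gcongr
  have h2 : (B.card : ℝ) * (c / 16 * (U : ℝ) ^ 2 / Real.log L) ^ 2 =
      ((B.card : ℝ) * c ^ 2 * U) * ((U : ℝ) ^ 3 / (256 * Real.log L ^ 2)) := by
    field_simp
    norm_num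
  rw [h2] at h1
  have h3 : K * (N + (L : ℝ) ^ 2) * (U : ℝ) ^ 3 * Real.log L =
      (256 * K * (N + (L : ℝ) ^ 2) * Real.log L ^ 3) * ((U : ℝ) ^ 3 / (256 * Real.log L ^ 2)) := by
    field_simp
  rw [h3] at h1
  have h4 : (B.card : ℝ) * c ^ 2 * U ≤ 256 * K * (N + (L : ℝ) ^ 2) * Real.log L ^ 3 :=
    le_of_mul_le_mul_right h1 (by positivity)
  have hLL : (L : ℝ) ^ 2 ≤ 4 * N := by
    have : (L : ℝ) ≤ 2 * Real.sqrt N := by linarith
    calc (L : ℝ) ^ 2 ≤ (2 * Real.sqrt N) ^ 2 := by gcongr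
      _ = 4 * (Real.sqrt N * Real.sqrt N) := by ring
      _ = 4 * N := by rw [hsq]
  have h5 : (B.card : ℝ) * c ^ 2 * U ≤ 1280 * K * N * Real.log N ^ 3 := by
    calc (B.card : ℝ) * c ^ 2 * U ≤ 256 * K * (N + (L : ℝ) ^ 2) * Real.log L ^ 3 := h4
      _ ≤ 256 * K * (N + 4 * N) * Real.log N ^ 3 := by gcongr
      _ = 1280 * K * N * Real.log N ^ 3 := by ring
  have e2 : 1280 * K / c ^ 2 * N * Real.log N ^ 3 = (1280 * K * N * Real.log N ^ 3) / c ^ 2 := by
    field_simp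
  rw [e2, le_div_iff₀ (by positivity)]
  linarith

end Pool.Agent.L7h58.BP
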