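import Pool.Agent.L7h58.BP.Pow

set_option autoImplicit false

/-! A power saving exceptional set, second part: the final count. -/

namespace Pool.Agent.L7h58.BP

open Finset Polynomial Filter

theorem goodD_factor (hL : S_LOC) (hF : S_FAC) {n : ℕ} {D : ℝ} (hn : Even n) (hg : GoodD D n)
    (hD : 3 * D < n) :
    ∃ h : ℚ[X], Irreducible h ∧ h ∣ Polynomial.bernoulli n ∧ (n : ℝ) - D ≤ h.natDegree := by
  obtain ⟨l, A, t, hl, hl2, hnn, htA, hAl, hb⟩ := hg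
  have h3 : 3 * (t * l) < n := by
    have : (3 : ℝ) * (t * l) < n := by linarith
    exact_mod_cast this
  obtain ⟨h, h1, h2, h4⟩ := hF (Polynomial.bernoulli n) (t * l) (bern_ne_zero _) (by
    rw [bern_natDegree]; exact h3) (fun f g hfg => hL n l A t hn hl hl2 hnn htA hAl f g hfg)
  refine ⟨h, h1, h2, ?_⟩
  rw [bern_natDegree] at h4
  have h5 : n ≤ h.natDegree + t * l := by omega
  have h6 : (n : ℝ) ≤ h.natDegree + t * l := by exact_mod_cast h5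
  linarith

/-- the exceptional degrees -/
def Exc (δ : ℝ) (n : ℕ) : Prop := Even n ∧ ¬ ∃ h : ℚ[X], Irreducible h ∧
  h ∣ Polynomial.bernoulli n ∧ (n : ℝ) - (n : ℝ) ^ (1 / 2 + δ) ≤ h.natDegree

open Classical in
theorem half_count (hL : S_LOC) (hF : S_FAC) (hV : S_VAR) (hP : S_PRC) {δ : ℝ} (hδ0 : 0 < δ)
    (hδ1 : δ < 1 / 2) : ∃ C : ℝ, 0 < C ∧ ∀ᶠ N : ℕ in atTop,
      (((Ioc (N / 2) N).filter (fun n => Exc δ n)).card : ℝ) ≤
        C * (N : ℝ) ^ (1 - δ) * Real.log N ^ 3 := by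
  obtain ⟨K, hK, hV⟩ := hV
  obtain ⟨c, hc, hP⟩ := hP
  have hcast : Tendsto (fun N : ℕ => (N : ℝ)) atTop atTop := tendsto_natCast_atTop_atTop
  have hsqt : Tendsto (fun N : ℕ => Real.sqrt N) atTop atTop :=
    Real.tendsto_sqrt_atTop.comp hcast
  have h1 : ∀ᶠ N : ℕ in atTop, 600 ≤ (N : ℝ) ^ δ :=
    ((tendsto_rpow_atTop hδ0).comp hcast).eventually_ge_atTop 600
  have h2 : ∀ᶠ N : ℕ in atTop, 2 ≤ (N : ℝ) ^ (1 / 2 - δ) :=
    ((tendsto_rpow_atTop (by linarith : 0 < 1 / 2 - δ)).comp hcast).eventually_ge_atTop 2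
  have h3 : ∀ᶠ N : ℕ in atTop, 200 ≤ Real.sqrt N := hsqt.eventually_ge_atTop 200
  have hLt : Tendsto (fun N : ℕ => ⌈Real.sqrt N⌉₊ + 2) atTop atTop :=
    tendsto_atTop_mono (fun N => Nat.le_add_right _ 2) (tendsto_nat_ceil_atTop.comp hsqt)
  have h4 := hLt.eventually hP
  refine ⟨400 * (1280 * K / c ^ 2), by positivity, ?_⟩
  filter_upwards [h1, h2, h3, h4, eventually_ge_atTop 9] with N h1 h2 h3 h4 h9
  have hN0 : (0 : ℝ) < N := by exact_mod_cast (by omega : 0 < N)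
  have hN1 : (1 : ℝ) ≤ N := by exact_mod_cast (by omega : 1 ≤ N)
  have hsq : Real.sqrt N * Real.sqrt N = N := Real.mul_self_sqrt hN0.le
  have hceil1 : Real.sqrt N ≤ ⌈Real.sqrt N⌉₊ := Nat.le_ceil _
  have hceil2 : (⌈Real.sqrt N⌉₊ : ℝ) < Real.sqrt N + 1 := Nat.ceil_lt_add_one (by positivity)
  have hy0 : 0 ≤ (N : ℝ) ^ δ := by linarith
  have hysq : (N : ℝ) ^ δ ≤ Real.sqrt N := by
    rw [Real.sqrt_eq_rpow]
    exact Real.rpow_le_rpow_of_exponent_le hN1 hδ1.le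
  set U : ℕ := ⌊(N : ℝ) ^ δ / 200⌋₊ with hU
  have hUle : (U : ℝ) ≤ (N : ℝ) ^ δ / 200 := Nat.floor_le (by positivity)
  have hUge : (N : ℝ) ^ δ / 200 < U + 1 := Nat.lt_floor_add_one _
  have hU400 : (N : ℝ) ^ δ / 400 ≤ U := by linarith
  have hU2 : 2 ≤ U := by
    have : (1 : ℝ) < U := by linarith
    have : 1 < U := by exact_mod_cast this
    omega
  have hUN : (2 * (U : ℝ) + 1) * (32 * Real.sqrt N) ≤ (N : ℝ) / 2 := by
    have e1 : 2 * (U : ℝ) + 1 ≤ Real.sqrt N / 64 := by linarith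
    calc (2 * (U : ℝ) + 1) * (32 * Real.sqrt N) ≤ (Real.sqrt N / 64) * (32 * Real.sqrt N) :=
          mul_le_mul_of_nonneg_right e1 (by positivity)
      _ = (Real.sqrt N * Real.sqrt N) / 2 := by ring
      _ = (N : ℝ) / 2 := by rw [hsq]
  have hpow : (N : ℝ) ^ (1 / 2 + δ) = Real.sqrt N * (N : ℝ) ^ δ := by
    rw [Real.rpow_add hN0, ← Real.sqrt_eq_rpow]
  have hpow2 : 2 * (N : ℝ) ^ (1 / 2 + δ) ≤ N := by
    have e1 : (N : ℝ) ^ (1 / 2 + δ) * (N : ℝ) ^ (1 / 2 - δ) = N := by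
      rw [← Real.rpow_add hN0]
      have : (1 / 2 + δ + (1 / 2 - δ) : ℝ) = 1 := by ring
      rw [this, Real.rpow_one]
    have e2 : 0 ≤ (N : ℝ) ^ (1 / 2 + δ) := by positivity
    nlinarith
  have hB := large_half hK hc hV (N := N) (L := ⌈Real.sqrt N⌉₊ + 2) (U := U) h9
    (by push_cast; linarith) (by push_cast; linarith) hU2 hUN h4
    ((Ioc (N / 2) N).filter (fun n => Exc δ n)) (by
      intro n hn
      rw [mem_filter, mem_Ioc] at hn
      obtain ⟨⟨hn1, hn2⟩, hn3⟩ := hn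
      have hnN : (N : ℝ) / 2 ≤ n := by
        have : N ≤ 2 * n := by omega
        have : (N : ℝ) ≤ 2 * n := by exact_mod_cast this
        linarith
      refine ⟨hnN, hn2, ?_⟩
      intro hg
      have hD : 64 * (U : ℝ) * Real.sqrt N ≤ (8 / 25) * (N : ℝ) ^ (1 / 2 + δ) := by
        rw [hpow]
        have := mul_le_mul_of_nonneg_right hUle (Real.sqrt_nonneg (N : ℝ))
        nlinarith
      obtain ⟨h, a1, a2, a3⟩ := goodD_factor hL hF hn3.1 hg (by linarith)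
      apply hn3.2
      refine ⟨h, a1, a2, ?_⟩
      have e3 : ((N : ℝ) / 2) ^ (1 / 2 + δ) ≤ (n : ℝ) ^ (1 / 2 + δ) :=
        Real.rpow_le_rpow (by positivity) hnN (by linarith)
      have e4 : (1 / 2 : ℝ) * (N : ℝ) ^ (1 / 2 + δ) ≤ ((N : ℝ) / 2) ^ (1 / 2 + δ) := by
        have e5 : ((2 : ℝ)⁻¹) ^ (1 : ℝ) ≤ ((2 : ℝ)⁻¹) ^ (1 / 2 + δ) :=
          Real.rpow_le_rpow_of_exponent_ge (by norm_num) (by norm_num) (by linarith)
        rw [Real.rpow_one] at e5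
        have e7 : (1 / 2 : ℝ) ≤ ((2 : ℝ)⁻¹) ^ (1 / 2 + δ) := by linarith
        have e8 : (0 : ℝ) ≤ (N : ℝ) ^ (1 / 2 + δ) := by positivity
        rw [div_eq_mul_inv (N : ℝ) 2, Real.mul_rpow hN0.le (by norm_num), mul_comm]
        exact mul_le_mul_of_nonneg_left e7 e8
      have e6 : 0 ≤ (N : ℝ) ^ (1 / 2 + δ) := by positivity
      linarith)
  have hyp : 0 < (N : ℝ) ^ δ := by linarith
  have hN1δ : (N : ℝ) ^ (1 - δ) * (N : ℝ) ^ δ = N := by
    rw [← Real.rpow_add hN0]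
    have : (1 - δ + δ : ℝ) = 1 := by ring
    rw [this, Real.rpow_one]
  set b : ℝ := (((Ioc (N / 2) N).filter (fun n => Exc δ n)).card : ℝ) with hb
  have hb0 : 0 ≤ b := by positivity
  have e1 : b * ((N : ℝ) ^ δ / 400) ≤ 1280 * K / c ^ 2 * N * Real.log N ^ 3 :=
    le_trans (mul_le_mul_of_nonneg_left hU400 hb0) hB
  have e2 : b * (N : ℝ) ^ δ ≤
      (400 * (1280 * K / c ^ 2) * (N : ℝ) ^ (1 - δ) * Real.log N ^ 3) * (N : ℝ) ^ δ := by
    have e3 : (400 * (1280 * K / c ^ 2) * (N : ℝ) ^ (1 - δ) * Real.log N ^ 3) * (N : ℝ) ^ δ =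
        400 * (1280 * K / c ^ 2 * ((N : ℝ) ^ (1 - δ) * (N : ℝ) ^ δ) * Real.log N ^ 3) := by ring
    rw [e3, hN1δ]
    linarith
  exact le_of_mul_le_mul_right e2 hyp

open Classical in
theorem exc_pow_count (hL : S_LOC) (hF : S_FAC) (hV : S_VAR) (hP : S_PRC) {δ : ℝ} (hδ0 : 0 < δ)
    (hδ1 : δ < 1 / 2) : ∃ C : ℝ, 0 < C ∧ ∀ N : ℕ, 1 ≤ N →
      (((Ioc 0 N).filter (fun n => Exc δ n)).card : ℝ) ≤
        C * (N : ℝ) ^ (1 - δ) * (1 + Real.log N) ^ 3 := by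
  obtain ⟨C, hC, hev⟩ := half_count hL hF hV hP hδ0 hδ1
  obtain ⟨N0, hN0⟩ := eventually_atTop.1 hev
  refine ⟨4 * C + N0 + 2, by positivity, ?_⟩
  intro N
  induction N using Nat.strong_induction_on with
  | _ N ih =>
    intro hN
    have hNr : (1 : ℝ) ≤ N := by exact_mod_cast hN
    have hlog : 0 ≤ Real.log (N : ℝ) := Real.log_nonneg hNr
    have hp1 : (1 : ℝ) ≤ (N : ℝ) ^ (1 - δ) := Real.one_le_rpow hNr (by linarith)
    have hp2 : (1 : ℝ) ≤ (1 + Real.log N) ^ 3 := one_le_pow₀ (by linarith)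
    by_cases hs : N < N0 + 2
    · have h1 : (((Ioc 0 N).filter (fun n => Exc δ n)).card : ℝ) ≤ N := by
        have := card_filter_le (Ioc 0 N) (fun n => Exc δ n)
        rw [Nat.card_Ioc, Nat.sub_zero] at this
        exact_mod_cast this
      have h2 : (N : ℝ) ≤ N0 + 2 := by exact_mod_cast hs.le
      have h3 : (N : ℝ) ≤ 4 * C + N0 + 2 := by linarith
      have h4 : (0 : ℝ) ≤ 4 * C + N0 + 2 := by positivity
      calc _ ≤ (N : ℝ) := h1
        _ ≤ (4 * C + N0 + 2) * 1 * 1 := by linarith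
        _ ≤ (4 * C + N0 + 2) * (N : ℝ) ^ (1 - δ) * (1 + Real.log N) ^ 3 := by
          gcongr
    · push Not at hs
      have hih := ih (N / 2) (by omega) (by omega)
      have hhalf := hN0 N (by omega)
      have hsplit : ((Ioc 0 N).filter (fun n => Exc δ n)).card ≤
          ((Ioc 0 (N / 2)).filter (fun n => Exc δ n)).card +
          ((Ioc (N / 2) N).filter (fun n => Exc δ n)).card := by
        refine le_trans (card_le_card ?_) (card_union_le _ _)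
        intro n hn
        rw [mem_filter, mem_Ioc] at hn
        rw [mem_union, mem_filter, mem_filter, mem_Ioc, mem_Ioc]
        by_cases h : n ≤ N / 2
        · left; exact ⟨⟨hn.1.1, h⟩, hn.2⟩
        · right; exact ⟨⟨by omega, hn.1.2⟩, hn.2⟩
      have hsplit' : (((Ioc 0 N).filter (fun n => Exc δ n)).card : ℝ) ≤
          (((Ioc 0 (N / 2)).filter (fun n => Exc δ n)).card : ℝ) +
          (((Ioc (N / 2) N).filter (fun n => Exc δ n)).card : ℝ) := by exact_mod_cast hsplit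
      have hM1 : ((N / 2 : ℕ) : ℝ) ≤ (N : ℝ) * (1 / 2) := by
        have := @Nat.cast_div_le ℝ _ _ _ N 2
        push_cast at this
        linarith
      have hM0 : (1 : ℝ) ≤ ((N / 2 : ℕ) : ℝ) := by exact_mod_cast (by omega : 1 ≤ N / 2)
      have hpw : ((N / 2 : ℕ) : ℝ) ^ (1 - δ) ≤ (3 / 4) * (N : ℝ) ^ (1 - δ) := by
        refine le_trans (Real.rpow_le_rpow (by linarith) hM1 (by linarith)) ?_
        rw [Real.mul_rpow (by linarith) (by norm_num), mul_comm]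
        apply mul_le_mul_of_nonneg_right _ (by linarith)
        have e5 : ((1 / 2 : ℝ)) ^ (1 - δ) ≤ ((1 / 2 : ℝ)) ^ (1 / 2 : ℝ) :=
          Real.rpow_le_rpow_of_exponent_ge (by norm_num) (by norm_num) (by linarith)
        refine e5.trans ?_
        rw [← Real.sqrt_eq_rpow]
        rw [Real.sqrt_le_left (by norm_num)]
        norm_num
      have hlg : (1 + Real.log ((N / 2 : ℕ) : ℝ)) ^ 3 ≤ (1 + Real.log N) ^ 3 := by
        have h5 : 0 ≤ Real.log ((N / 2 : ℕ) : ℝ) := Real.log_nonneg hM0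
        have h6 : Real.log ((N / 2 : ℕ) : ℝ) ≤ Real.log N :=
          Real.log_le_log (by linarith) (by linarith)
        exact pow_le_pow_left₀ (by linarith) (by linarith) 3
      have hlg2 : Real.log (N : ℝ) ^ 3 ≤ (1 + Real.log N) ^ 3 :=
        pow_le_pow_left₀ hlog (by linarith) 3
      have h7 : (4 * C + N0 + 2) * ((N / 2 : ℕ) : ℝ) ^ (1 - δ) *
          (1 + Real.log ((N / 2 : ℕ) : ℝ)) ^ 3 ≤
          (4 * C + N0 + 2) * ((3 / 4) * (N : ℝ) ^ (1 - δ)) * (1 + Real.log N) ^ 3 := by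
        gcongr
      have h8 : C * (N : ℝ) ^ (1 - δ) * Real.log N ^ 3 ≤
          C * (N : ℝ) ^ (1 - δ) * (1 + Real.log N) ^ 3 :=
        mul_le_mul_of_nonneg_left hlg2 (by positivity)
      have h9 : 0 ≤ (N : ℝ) ^ (1 - δ) * (1 + Real.log N) ^ 3 := by positivity
      have h10 : C ≤ (1 / 4) * (4 * C + N0 + 2) := by
        have : (0 : ℝ) ≤ N0 := Nat.cast_nonneg _
        linarith
      have h11 := mul_le_mul_of_nonneg_right h10 h9
      calc _ ≤ _ := hsplit'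
        _ ≤ (4 * C + N0 + 2) * ((3 / 4) * (N : ℝ) ^ (1 - δ)) * (1 + Real.log N) ^ 3 +
            C * (N : ℝ) ^ (1 - δ) * (1 + Real.log N) ^ 3 := by
          linarith
        _ ≤ (4 * C + N0 + 2) * (N : ℝ) ^ (1 - δ) * (1 + Real.log N) ^ 3 := by
          nlinarith

theorem s_POW (hL : S_LOC) (hF : S_FAC) (hV : S_VAR) (hP : S_PRC) (δ : ℝ) (hδ0 : 0 < δ)
    (hδ1 : δ < 1 / 2) : ∃ C : ℝ, 0 < C ∧ ∀ N : ℕ, 2 ≤ N →
      (Nat.card {n : ℕ // 1 ≤ n ∧ n ≤ N ∧ Even n ∧ ¬ ∃ h : ℚ[X], Irreducible h ∧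
        h ∣ Polynomial.bernoulli n ∧ (n : ℝ) - (n : ℝ) ^ (1 / 2 + δ) ≤ h.natDegree} : ℝ) ≤
        C * (N : ℝ) ^ (1 - δ) * Real.log N ^ 3 := by
  classical
  obtain ⟨C, hC, h⟩ := exc_pow_count hL hF hV hP hδ0 hδ1
  refine ⟨27 * C, by positivity, ?_⟩
  intro N hN
  have hcard : Nat.card {n : ℕ // 1 ≤ n ∧ n ≤ N ∧ Even n ∧ ¬ ∃ h : ℚ[X], Irreducible h ∧
        h ∣ Polynomial.bernoulli n ∧ (n : ℝ) - (n : ℝ) ^ (1 / 2 + δ) ≤ h.natDegree} =
      ((Ioc 0 N).filter (fun n => Exc δ n)).card := by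
    rw [Nat.subtype_card]
    intro n
    rw [mem_filter, mem_Ioc]
    unfold Exc
    constructor
    · rintro ⟨⟨h1, h2⟩, h3⟩
      exact ⟨h1, h2, h3⟩
    · rintro ⟨h1, h2, h3⟩
      exact ⟨⟨h1, h2⟩, h3⟩
  rw [hcard]
  refine (h N (by omega)).trans ?_
  have h2 : (2 : ℝ) ≤ N := by exact_mod_cast hN
  have h3 : Real.log 2 ≤ Real.log N := Real.log_le_log (by norm_num) h2
  have h4 : (0.6931471803 : ℝ) < Real.log 2 := Real.log_two_gt_d9
  have h5 : (1 + Real.log (N : ℝ)) ^ 3 ≤ (3 * Real.log N) ^ 3 :=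
    pow_le_pow_left₀ (by linarith) (by linarith) 3
  calc C * (N : ℝ) ^ (1 - δ) * (1 + Real.log N) ^ 3
      ≤ C * (N : ℝ) ^ (1 - δ) * (3 * Real.log N) ^ 3 :=
        mul_le_mul_of_nonneg_left h5 (by positivity)
    _ = 27 * C * (N : ℝ) ^ (1 - δ) * Real.log N ^ 3 := by ring

end Pool.Agent.L7h58.BP
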