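import Pool.Agent.L7h58.BP.Pow

set_option autoImplicit false

/-! The exceptional set for a cofactor of degree at most `V √n`, uniformly in `V`. -/

namespace Pool.Agent.L7h58.BP

open Finset Polynomial Filter

theorem goodD_factor (hL : S_LOC) (hF : S_FAC) {n : ℕ} {D : ℝ} (hn : Even n) (hg : GoodD D n)
    (hD : 3 * D < n) :
    ∃ h : ℚ[X], Irreducible h ∧ h ∣ Polynomial.bernoulli n ∧ (n : ℝ) - D ≤ h.natDegree := by
  obtain ⟨l, A, t, hl, hl2, hnn, htA, hAl, hb⟩ := hg
  have h3 : 3 * (t * l) < n := by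
    have : (3 : ℝ) * (t * l) < n := by linarith
    exact_mod_cast this
  obtain ⟨h, h1, h2, h4⟩ := hF (Polynomial.bernoulli n) (t * l) (bern_ne_zero _) (by
    rw [bern_natDegree]; exact h3) (fun f g hfg => hL n l A t hn hl hl2 hnn htA hAl f g hfg)
  refine ⟨h, h1, h2, ?_⟩
  rw [bern_natDegree] at h4
  have h5 : n ≤ h.natDegree + t * l := by omega
  have h6 : (n : ℝ) ≤ h.natDegree + t * l := by exact_mod_cast h5
  linarith

/-- the exceptional degrees -/
def ExcV (V : ℝ) (n : ℕ) : Prop := Even n ∧ ¬ ∃ h : ℚ[X], Irreducible h ∧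
  h ∣ Polynomial.bernoulli n ∧ (n : ℝ) - V * Real.sqrt n ≤ h.natDegree

theorem not_exc {V : ℝ} {n : ℕ} (hn : 1 ≤ n) (hV : Real.sqrt n ≤ V) : ¬ ExcV V n := by
  rintro ⟨-, h⟩
  apply h
  obtain ⟨g, hg, hg2⟩ := Polynomial.exists_irreducible_of_natDegree_pos
    (f := Polynomial.bernoulli n) (by rw [bern_natDegree]; omega)
  refine ⟨g, hg, hg2, ?_⟩
  have h1 : Real.sqrt n * Real.sqrt n = (n : ℝ) := Real.mul_self_sqrt (Nat.cast_nonneg n)
  have h2 : Real.sqrt n * Real.sqrt n ≤ V * Real.sqrt n :=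
    mul_le_mul_of_nonneg_right hV (Real.sqrt_nonneg _)
  have h3 : (0 : ℝ) ≤ g.natDegree := Nat.cast_nonneg _
  linarith

open Classical in
theorem half_V (hL : S_LOC) (hF : S_FAC) (hV : S_VAR) (hP : S_PRC) :
    ∃ C : ℝ, 0 < C ∧ ∃ N0 : ℕ, 3 ≤ N0 ∧ ∀ N : ℕ, N0 ≤ N → ∀ V : ℝ, 1 ≤ V →
      (((Ioc (N / 2) N).filter (fun n => ExcV V n)).card : ℝ) ≤
        C * N * Real.log N ^ 3 / V := by
  obtain ⟨K, hK, hV⟩ := hV
  obtain ⟨c, hc, hP⟩ := hP
  have hcast : Tendsto (fun N : ℕ => (N : ℝ)) atTop atTop := tendsto_natCast_atTop_atTop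
  have hsqt : Tendsto (fun N : ℕ => Real.sqrt N) atTop atTop :=
    Real.tendsto_sqrt_atTop.comp hcast
  have h3 : ∀ᶠ N : ℕ in atTop, 800 ≤ Real.sqrt N := hsqt.eventually_ge_atTop 800
  have hLt : Tendsto (fun N : ℕ => ⌈Real.sqrt N⌉₊ + 2) atTop atTop :=
    tendsto_atTop_mono (fun N => Nat.le_add_right _ 2) (tendsto_nat_ceil_atTop.comp hsqt)
  have h4 := hLt.eventually hP
  have h5 : ∀ᶠ N : ℕ in atTop, 1 ≤ Real.log N :=
    (Real.tendsto_log_atTop.comp hcast).eventually_ge_atTop 1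
  obtain ⟨N1, hN1⟩ := eventually_atTop.1 (h3.and (h4.and h5))
  refine ⟨200 + 800 * (1280 * K / c ^ 2), by positivity, N1 + 9, by omega, ?_⟩
  intro N hNN V hV1
  obtain ⟨h3, h4, h5⟩ := hN1 N (by omega)
  have h9 : 9 ≤ N := by omega
  have hN0 : (0 : ℝ) < N := by exact_mod_cast (by omega : 0 < N)
  have hsq : Real.sqrt N * Real.sqrt N = N := Real.mul_self_sqrt hN0.le
  have hK' : 0 ≤ 1280 * K / c ^ 2 := by positivity
  have hV0 : 0 < V := by linarith
  have hlog3 : 1 ≤ Real.log (N : ℝ) ^ 3 := one_le_pow₀ h5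
  by_cases hc1 : Real.sqrt N ≤ V
  · -- no exceptions
    have he : (Ioc (N / 2) N).filter (fun n => ExcV V n) = ∅ := by
      apply filter_eq_empty_iff.2
      intro n hn
      rw [mem_Ioc] at hn
      apply not_exc (by omega)
      refine le_trans (Real.sqrt_le_sqrt ?_) hc1
      exact_mod_cast hn.2
    rw [he, card_empty, Nat.cast_zero]
    positivity
  push Not at hc1
  by_cases hc2 : V < 200
  · have h1 : (((Ioc (N / 2) N).filter (fun n => ExcV V n)).card : ℝ) ≤ N := by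
      have h := card_filter_le (Ioc (N / 2) N) (fun n => ExcV V n)
      rw [Nat.card_Ioc] at h
      have : ((Ioc (N / 2) N).filter (fun n => ExcV V n)).card ≤ N := by omega
      exact_mod_cast this
    refine h1.trans ?_
    rw [le_div_iff₀ hV0]
    have h6 : (N : ℝ) * V ≤ N * 200 := mul_le_mul_of_nonneg_left hc2.le hN0.le
    have h7 : (N : ℝ) * 200 ≤ (200 * N) * Real.log N ^ 3 := by
      have := mul_le_mul_of_nonneg_left hlog3 (by positivity : (0 : ℝ) ≤ 200 * N)
      linarith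
    have h8 : 0 ≤ 800 * (1280 * K / c ^ 2) * N * Real.log N ^ 3 := by positivity
    calc (N : ℝ) * V ≤ (200 * N) * Real.log N ^ 3 := h6.trans h7
      _ ≤ (200 + 800 * (1280 * K / c ^ 2)) * N * Real.log N ^ 3 := by linarith
  push Not at hc2
  have hceil1 : Real.sqrt N ≤ ⌈Real.sqrt N⌉₊ := Nat.le_ceil _
  have hceil2 : (⌈Real.sqrt N⌉₊ : ℝ) < Real.sqrt N + 1 := Nat.ceil_lt_add_one (by positivity)
  set r : ℝ := min (V / 100) (Real.sqrt N / 400) with hr
  have hr1 : r ≤ V / 100 := min_le_left _ _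
  have hr2 : r ≤ Real.sqrt N / 400 := min_le_right _ _
  have hr3 : V / 400 ≤ r := le_min (by linarith) (by linarith)
  have hr4 : 2 ≤ r := le_min (by linarith) (by linarith)
  set U : ℕ := ⌊r⌋₊ with hU
  have hUle : (U : ℝ) ≤ r := Nat.floor_le (by linarith)
  have hUge : r < U + 1 := Nat.lt_floor_add_one _
  have hU800 : V / 800 ≤ U := by linarith
  have hU2 : 2 ≤ U := by
    apply Nat.le_floor
    exact_mod_cast hr4
  have hUN : (2 * (U : ℝ) + 1) * (32 * Real.sqrt N) ≤ (N : ℝ) / 2 := by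
    have e1 : 2 * (U : ℝ) + 1 ≤ Real.sqrt N / 64 := by linarith
    calc (2 * (U : ℝ) + 1) * (32 * Real.sqrt N) ≤ (Real.sqrt N / 64) * (32 * Real.sqrt N) :=
          mul_le_mul_of_nonneg_right e1 (by positivity)
      _ = (Real.sqrt N * Real.sqrt N) / 2 := by ring
      _ = (N : ℝ) / 2 := by rw [hsq]
  have hB := large_half hK hc hV (N := N) (L := ⌈Real.sqrt N⌉₊ + 2) (U := U) h9
    (by push_cast; linarith) (by push_cast; linarith) hU2 hUN h4
    ((Ioc (N / 2) N).filter (fun n => ExcV V n)) (by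
      intro n hn
      rw [mem_filter, mem_Ioc] at hn
      obtain ⟨⟨hn1, hn2⟩, hn3⟩ := hn
      have hnN : (N : ℝ) / 2 ≤ n := by
        have : N ≤ 2 * n := by omega
        have : (N : ℝ) ≤ 2 * n := by exact_mod_cast this
        linarith
      refine ⟨hnN, hn2, ?_⟩
      intro hg
      have hD : 3 * (64 * (U : ℝ) * Real.sqrt N) < n := by
        have e1 : (U : ℝ) * Real.sqrt N ≤ (Real.sqrt N / 400) * Real.sqrt N :=
          mul_le_mul_of_nonneg_right (hUle.trans hr2) (Real.sqrt_nonneg _)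
        have e2 : (Real.sqrt N / 400) * Real.sqrt N = N / 400 := by
          rw [div_mul_eq_mul_div, hsq]
        linarith
      obtain ⟨h, a1, a2, a3⟩ := goodD_factor hL hF hn3.1 hg hD
      apply hn3.2
      refine ⟨h, a1, a2, ?_⟩
      have e3 : (7 / 10 : ℝ) * Real.sqrt N ≤ Real.sqrt n := by
        apply Real.le_sqrt_of_sq_le
        have e4 : ((7 / 10 : ℝ) * Real.sqrt N) ^ 2 = 49 / 100 * (Real.sqrt N * Real.sqrt N) := by
          ring
        rw [e4, hsq]
        linarith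
      have e5 : 64 * (U : ℝ) * Real.sqrt N ≤ V * Real.sqrt n := by
        have e6 : 64 * (U : ℝ) ≤ (7 / 10) * V := by linarith
        calc 64 * (U : ℝ) * Real.sqrt N ≤ ((7 / 10) * V) * Real.sqrt N :=
              mul_le_mul_of_nonneg_right e6 (Real.sqrt_nonneg _)
          _ = V * ((7 / 10) * Real.sqrt N) := by ring
          _ ≤ V * Real.sqrt n := mul_le_mul_of_nonneg_left e3 hV0.le
      linarith)
  set b : ℝ := (((Ioc (N / 2) N).filter (fun n => ExcV V n)).card : ℝ) with hb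
  have hb0 : 0 ≤ b := by positivity
  have e1 : b * (V / 800) ≤ 1280 * K / c ^ 2 * N * Real.log N ^ 3 :=
    le_trans (mul_le_mul_of_nonneg_left hU800 hb0) hB
  rw [le_div_iff₀ hV0]
  have e2 : 0 ≤ 200 * (N * Real.log N ^ 3) := by positivity
  calc b * V = 800 * (b * (V / 800)) := by ring
    _ ≤ 800 * (1280 * K / c ^ 2 * N * Real.log N ^ 3) := by linarith
    _ ≤ (200 + 800 * (1280 * K / c ^ 2)) * N * Real.log N ^ 3 := by linarith

open Classical in
theorem count_V (hL : S_LOC) (hF : S_FAC) (hV : S_VAR) (hP : S_PRC) :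
    ∃ C : ℝ, 0 < C ∧ ∀ N : ℕ, 1 ≤ N → ∀ V : ℝ, 1 ≤ V →
      (((Ioc 0 N).filter (fun n => ExcV V n)).card : ℝ) ≤
        C * N * (1 + Real.log N) ^ 3 / V := by
  obtain ⟨C, hC, N0, hN03, hN0⟩ := half_V hL hF hV hP
  refine ⟨2 * C + N0, by positivity, ?_⟩
  intro N
  induction N using Nat.strong_induction_on with
  | _ N ih =>
    intro hN V hV1
    have hV0 : 0 < V := by linarith
    have hNr : (1 : ℝ) ≤ N := by exact_mod_cast hN
    have hlog : 0 ≤ Real.log (N : ℝ) := Real.log_nonneg hNr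
    have hp2 : (1 : ℝ) ≤ (1 + Real.log N) ^ 3 := one_le_pow₀ (by linarith)
    by_cases hs : N < N0
    · by_cases hc1 : Real.sqrt N ≤ V
      · have he : (Ioc 0 N).filter (fun n => ExcV V n) = ∅ := by
          apply filter_eq_empty_iff.2
          intro n hn
          rw [mem_Ioc] at hn
          apply not_exc (by omega)
          refine le_trans (Real.sqrt_le_sqrt ?_) hc1
          exact_mod_cast hn.2
        rw [he, card_empty, Nat.cast_zero]
        positivity
      · push Not at hc1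
        have h1 : (((Ioc 0 N).filter (fun n => ExcV V n)).card : ℝ) ≤ N := by
          have := card_filter_le (Ioc 0 N) (fun n => ExcV V n)
          rw [Nat.card_Ioc, Nat.sub_zero] at this
          exact_mod_cast this
        refine h1.trans ?_
        rw [le_div_iff₀ hV0]
        have h2 : Real.sqrt N ≤ N0 := by
          have h6 : (N : ℝ) ≤ N0 := by exact_mod_cast hs.le
          refine le_trans ?_ h6
          rw [Real.sqrt_le_left (by linarith)]
          nlinarith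
        have h3 : (N : ℝ) * V ≤ N * N0 :=
          mul_le_mul_of_nonneg_left (hc1.le.trans h2) (by linarith)
        have h4 : (N : ℝ) * N0 ≤ (2 * C + N0) * N := by nlinarith
        have h5 : 0 ≤ (2 * C + N0) * (N : ℝ) := by positivity
        calc (N : ℝ) * V ≤ (2 * C + N0) * N * 1 := by linarith
          _ ≤ (2 * C + N0) * N * (1 + Real.log N) ^ 3 := mul_le_mul_of_nonneg_left hp2 h5
    · push Not at hs
      have hih := ih (N / 2) (by omega) (by omega) V hV1
      have hhalf := hN0 N hs V hV1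
      have hsplit : ((Ioc 0 N).filter (fun n => ExcV V n)).card ≤
          ((Ioc 0 (N / 2)).filter (fun n => ExcV V n)).card +
          ((Ioc (N / 2) N).filter (fun n => ExcV V n)).card := by
        refine le_trans (card_le_card ?_) (card_union_le _ _)
        intro n hn
        rw [mem_filter, mem_Ioc] at hn
        rw [mem_union, mem_filter, mem_filter, mem_Ioc, mem_Ioc]
        by_cases h : n ≤ N / 2
        · left; exact ⟨⟨hn.1.1, h⟩, hn.2⟩
        · right; exact ⟨⟨by omega, hn.1.2⟩, hn.2⟩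
      have hsplit' : (((Ioc 0 N).filter (fun n => ExcV V n)).card : ℝ) ≤
          (((Ioc 0 (N / 2)).filter (fun n => ExcV V n)).card : ℝ) +
          (((Ioc (N / 2) N).filter (fun n => ExcV V n)).card : ℝ) := by exact_mod_cast hsplit
      have hM1 : ((N / 2 : ℕ) : ℝ) ≤ (N : ℝ) * (1 / 2) := by
        have := @Nat.cast_div_le ℝ _ _ _ N 2
        push_cast at this
        linarith
      have hM0 : (1 : ℝ) ≤ ((N / 2 : ℕ) : ℝ) := by exact_mod_cast (by omega : 1 ≤ N / 2)
      have hlg : (1 + Real.log ((N / 2 : ℕ) : ℝ)) ^ 3 ≤ (1 + Real.log N) ^ 3 := by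
        have h5 : 0 ≤ Real.log ((N / 2 : ℕ) : ℝ) := Real.log_nonneg hM0
        have h6 : Real.log ((N / 2 : ℕ) : ℝ) ≤ Real.log N :=
          Real.log_le_log (by linarith) (by linarith)
        exact pow_le_pow_left₀ (by linarith) (by linarith) 3
      have hlg2 : Real.log (N : ℝ) ^ 3 ≤ (1 + Real.log N) ^ 3 :=
        pow_le_pow_left₀ hlog (by linarith) 3
      have h0 : 0 ≤ Real.log ((N / 2 : ℕ) : ℝ) := Real.log_nonneg hM0
      have h7 : (2 * C + N0) * ((N / 2 : ℕ) : ℝ) * (1 + Real.log ((N / 2 : ℕ) : ℝ)) ^ 3 / V ≤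
          (2 * C + N0) * ((N : ℝ) * (1 / 2)) * (1 + Real.log N) ^ 3 / V := by
        gcongr
      have h8 : C * N * Real.log N ^ 3 / V ≤ C * N * (1 + Real.log N) ^ 3 / V := by
        gcongr
      have h9 : 0 ≤ (N : ℝ) * (1 + Real.log N) ^ 3 / V := by positivity
      have h10 : C + (2 * C + N0) * (1 / 2) ≤ 2 * C + (N0 : ℝ) := by
        have : (0 : ℝ) ≤ N0 := Nat.cast_nonneg _
        linarith
      have h11 := mul_le_mul_of_nonneg_right h10 h9
      calc _ ≤ _ := hsplit'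
        _ ≤ (2 * C + N0) * ((N : ℝ) * (1 / 2)) * (1 + Real.log N) ^ 3 / V +
            C * N * (1 + Real.log N) ^ 3 / V := by linarith
        _ = (C + (2 * C + N0) * (1 / 2)) * ((N : ℝ) * (1 + Real.log N) ^ 3 / V) := by ring
        _ ≤ (2 * C + N0) * ((N : ℝ) * (1 + Real.log N) ^ 3 / V) := h11
        _ = (2 * C + N0) * N * (1 + Real.log N) ^ 3 / V := by ring

theorem s_UNI (hL : S_LOC) (hF : S_FAC) (hV : S_VAR) (hP : S_PRC) : ∃ C : ℝ, 0 < C ∧
    ∀ N : ℕ, 2 ≤ N → ∀ V : ℝ, 1 ≤ V →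
      (Nat.card {n : ℕ // 1 ≤ n ∧ n ≤ N ∧ Even n ∧ ¬ ∃ h : ℚ[X], Irreducible h ∧
        h ∣ Polynomial.bernoulli n ∧ (n : ℝ) - V * Real.sqrt n ≤ h.natDegree} : ℝ) ≤
        C * N * Real.log N ^ 3 / V := by
  classical
  obtain ⟨C, hC, h⟩ := count_V hL hF hV hP
  refine ⟨27 * C, by positivity, ?_⟩
  intro N hN V hV1
  have hV0 : 0 < V := by linarith
  have hcard : Nat.card {n : ℕ // 1 ≤ n ∧ n ≤ N ∧ Even n ∧ ¬ ∃ h : ℚ[X], Irreducible h ∧
        h ∣ Polynomial.bernoulli n ∧ (n : ℝ) - V * Real.sqrt n ≤ h.natDegree} =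
      ((Ioc 0 N).filter (fun n => ExcV V n)).card := by
    rw [Nat.subtype_card]
    intro n
    rw [mem_filter, mem_Ioc]
    unfold ExcV
    constructor
    · rintro ⟨⟨h1, h2⟩, h3⟩
      exact ⟨h1, h2, h3⟩
    · rintro ⟨h1, h2, h3⟩
      exact ⟨⟨h1, h2⟩, h3⟩
  rw [hcard]
  refine (h N (by omega) V hV1).trans ?_
  have h2 : (2 : ℝ) ≤ N := by exact_mod_cast hN
  have h3 : Real.log 2 ≤ Real.log N := Real.log_le_log (by norm_num) h2
  have h4 : (0.6931471803 : ℝ) < Real.log 2 := Real.log_two_gt_d9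
  have h5 : (1 + Real.log (N : ℝ)) ^ 3 ≤ (3 * Real.log N) ^ 3 :=
    pow_le_pow_left₀ (by linarith) (by linarith) 3
  apply div_le_div_of_nonneg_right _ hV0.le
  calc C * N * (1 + Real.log N) ^ 3
      ≤ C * N * (3 * Real.log N) ^ 3 :=
        mul_le_mul_of_nonneg_left h5 (by positivity)
    _ = 27 * C * N * Real.log N ^ 3 := by ring

end Pool.Agent.L7h58.BP
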